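import Pool.Agent.Work.MP_3d4872_al.R1.Pair

/-!
# MP_3d4872_al: the compatible brackets of rank one, the converse
-/

set_option autoImplicit false
set_option linter.unusedSectionVars false

namespace Pool.Agent.Work.MP_3d4872_al.R1

open Pool.Agent.Work.MP_3d4872_al Pool.Agent.Work.MP_3d4872_al.Sr Module

variable {L : Type*} [LieRing L] [LieAlgebra ℂ L] [FiniteDimensional ℂ L] [LieAlgebra.IsKilling ℂ L]

lemma exists_kill {y : L} (hy : y ≠ 0) : ∃ X, killingForm ℂ L y X ≠ 0 := by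
  by_contra hcon
  push Not at hcon
  exact hy (eq_zero_of_killing hcon)

lemma exists_kill_lie {y : L} (hy : y ≠ 0) : ∃ X Y : L, killingForm ℂ L y ⁅X, Y⁆ ≠ 0 := by
  by_contra hcon
  push Not at hcon
  apply hy
  apply eq_zero_of_lie
  intro X
  apply eq_zero_of_killing
  intro Y
  rw [LieModule.traceForm_apply_lie_apply]
  exact hcon X Y

lemma om_zero_right (x y X : L) : om x y X 0 = 0 := by
  simp [om]

namespace IsTriple

variable {x₀ e f : L} {lam k : ℂ} (ht : IsTriple x₀ e f lam k)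

include ht

lemma orbitDim_le {y : L} (hy : y ∈ spanT x₀ e f) : orbitDim y ≤ 3 := by
  rw [← ht.finrank_span]
  apply Submodule.finrank_mono
  rintro _ ⟨Y, rfl⟩
  change ⁅y, Y⁆ ∈ _
  rw [← lie_skew]
  exact Submodule.neg_mem _ (ht.lie_mem_span Y hy)

/-- The case of `y` in a three-dimensional ideal. -/
lemma converse_left {x y : L} (hy : y ∈ spanT x₀ e f) (h : Cond x y) :
    ((∃ t : ℂ, ⁅x, y⁆ = t • y) ∧ killingForm ℂ L x y = 0) ∨ x ∈ spanT x₀ e f ∨
      killingForm ℂ L y y = 0 := by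
  by_cases hk : killingForm ℂ L y y = 0
  · exact Or.inr (Or.inr hk)
  obtain ⟨u, z, hu, hxu, hz, hz'⟩ := ht.decomp x
  by_cases hu0 : u = 0
  · left
    have e1 : x = z := by rw [hxu, hu0, zero_add]
    rw [e1]
    refine ⟨⟨0, ?_⟩, ?_⟩
    · rw [← lie_skew, hz' y hy, neg_zero, zero_smul]
    · rw [killing_comm]
      exact hz y hy
  right
  left
  have hom : ∀ X Y, om x y X Y = killingForm ℂ L y y * killingForm ℂ L u ⁅X, Y⁆ := by
    intro X Y
    exact ht.om_eq hy hu hxu hz hz' X Y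
  obtain ⟨Y₀, Z₀, hYZ⟩ := exists_kill_lie hu0
  obtain ⟨v2, w2, hv2, hY, hw2, hw2'⟩ := ht.decomp Y₀
  obtain ⟨v3, w3, hv3, hZ, hw3, hw3'⟩ := ht.decomp Z₀
  rw [ht.killing_lie_decomp hu hv2 hY hZ hw2' hw3] at hYZ
  have hz0 : z = 0 := by
    apply eq_zero_of_lie
    intro W
    obtain ⟨v1, w1, hv1, hW, hw1, hw1'⟩ := ht.decomp W
    have h1 := h w1 v2 v3
    have e1 : ⁅w1, ⁅v2, v3⁆⁆ = 0 := by
      rw [← lie_skew, hw1' _ (ht.lie_mem_span v2 hv3), neg_zero]
    have e2 : ⁅v3, w1⁆ = 0 := hw1' _ hv3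
    have e3 : ⁅w1, v2⁆ = 0 := by rw [← lie_skew, hw1' _ hv2, neg_zero]
    rw [hom w1 ⁅v2, v3⁆, hom v2 v3, e2, hom v3 w1, e3, hom w1 v2, e1, e2, e3] at h1
    simp only [om_zero_right, map_zero, mul_zero, zero_smul, zero_add, add_zero] at h1
    have h2 := (smul_eq_zero.mp h1).resolve_left (mul_ne_zero hk hYZ)
    have e4 : ⁅w1, u⁆ = 0 := by rw [← lie_skew, hw1' _ hu, neg_zero]
    rw [hxu, lie_add, e4, zero_add] at h2
    rw [hW, lie_add, ← lie_skew z v1, hz' _ hv1, neg_zero, zero_add, ← lie_skew, h2, neg_zero]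
  rw [hxu, hz0, add_zero]
  exact hu

/-- The case of `x` in a three-dimensional ideal, and `y` not. -/
lemma converse_right {x y : L} (hx0 : x ≠ 0) (hx : x ∈ spanT x₀ e f) (hy : y ∉ spanT x₀ e f)
    (h : Cond x y) : ⁅x, y⁆ = 0 ∧ killingForm ℂ L x y = 0 := by
  obtain ⟨v, w, hv, hyv, hw, hw'⟩ := ht.decomp y
  have hw0 : w ≠ 0 := by
    rintro rfl
    apply hy
    rw [hyv, add_zero]
    exact hv
  have hyx : ⁅y, x⁆ ∈ spanT x₀ e f := ht.lie_mem_span y hx
  obtain ⟨X₁, Y₁, hXY⟩ := exists_kill_lie hw0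
  obtain ⟨u1, z1, hu1, hX, hz1, hz1'⟩ := ht.decomp X₁
  obtain ⟨u2, z2, hu2, hY, hz2, hz2'⟩ := ht.decomp Y₁
  have hort : ∀ t ∈ spanT x₀ e f, killingForm ℂ L t ⁅z1, z2⁆ = 0 := by
    intro t htt
    rw [← LieModule.traceForm_apply_lie_apply, hz1' t htt]
    simp
  have hXY' : killingForm ℂ L y ⁅z1, z2⁆ ≠ 0 := by
    intro h0
    apply hXY
    rw [hyv, map_add, LinearMap.add_apply, hort v hv, zero_add] at h0
    have e1 : ⁅z1, u2⁆ = 0 := by rw [← lie_skew, hz1' u2 hu2, neg_zero]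
    have e2 : killingForm ℂ L w ⁅u1, u2⁆ = 0 := by
      rw [killing_comm]
      exact hw _ (ht.lie_mem_span u1 hu2)
    rw [hX, hY, add_lie, lie_add, lie_add, hz2' u1 hu1, e1, add_zero, zero_add, map_add, e2, h0,
      add_zero]
  have key : ∀ u3 ∈ spanT x₀ e f,
      om x y u3 ⁅z1, z2⁆ • x + om x y z1 z2 • ⁅u3, x⁆ = 0 := by
    intro u3 hu3
    have h1 := h z1 z2 u3
    have e1 : ⁅z1, x⁆ = 0 := by rw [← lie_skew, hz1' x hx, neg_zero]
    have e2 : ⁅z2, x⁆ = 0 := by rw [← lie_skew, hz2' x hx, neg_zero]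
    have e3 : ⁅z2, u3⁆ = 0 := by rw [← lie_skew, hz2' u3 hu3, neg_zero]
    have e4 : ⁅u3, z1⁆ = 0 := hz1' u3 hu3
    rw [e1, e2, e3, e4] at h1
    simpa [om_zero_right] using h1
  have hom0 : om x y z1 z2 = 0 := by
    by_contra hne
    apply hx0
    apply eq_zero_of_sq
    intro Z
    obtain ⟨u3, z3, hu3, hZ, hz3, hz3'⟩ := ht.decomp Z
    have h1 := key u3 hu3
    have h2 : ⁅x, Z⁆ = ((om x y z1 z2)⁻¹ * om x y u3 ⁅z1, z2⁆) • x := by
      have e1 : ⁅x, Z⁆ = -⁅u3, x⁆ := by rw [hZ, lie_add, hz3' x hx, add_zero, lie_skew]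
      have e2 : om x y z1 z2 • ⁅u3, x⁆ = -(om x y u3 ⁅z1, z2⁆ • x) := by
        rw [eq_neg_iff_add_eq_zero, add_comm]
        exact h1
      rw [e1, mul_smul, ← neg_eq_iff_eq_neg.mpr e2, smul_neg, smul_smul, inv_mul_cancel₀ hne,
        one_smul]
    rw [h2, lie_smul, lie_self, smul_zero]
  have hk : killingForm ℂ L x y = 0 := by
    have h1 := hom0
    rw [om, hz1 _ hyx, hz2 _ hyx, mul_zero, mul_zero, sub_zero, add_zero] at h1
    exact (mul_eq_zero.mp h1).resolve_right hXY'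
  refine ⟨?_, hk⟩
  rw [← lie_skew, neg_eq_zero]
  apply eq_zero_of_killing
  intro Z
  obtain ⟨u3, z3, hu3, hZ, hz3, hz3'⟩ := ht.decomp Z
  have h1 := key u3 hu3
  rw [hom0, zero_smul, add_zero] at h1
  have h2 := (smul_eq_zero.mp h1).resolve_right hx0
  rw [om, hk, zero_mul, hort _ hyx, mul_zero, sub_zero, zero_add] at h2
  rw [hZ, map_add, hz3 _ hyx, add_zero]
  exact (mul_eq_zero.mp h2).resolve_left hXY'

end IsTriple

/-- The types of pairs. -/
theorem cond_iff {x y : L} (hx : x ≠ 0) (hy : y ≠ 0) :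
    Cond x y ↔ ((∃ t : ℂ, ⁅x, y⁆ = t • y) ∧ killingForm ℂ L x y = 0) ∨
      ∃ I : LieIdeal ℂ L, finrank ℂ I = 3 ∧ y ∈ I ∧
        (x ∈ I ∨ IsNilpotent (LieAlgebra.ad ℂ L y)) := by
  constructor
  · intro h
    by_cases hsm : orbitDim y ≤ 3
    · obtain ⟨x₀, e, f, lam, k, ht, hys⟩ := exists_triple_of_small hy hsm
      obtain ⟨I, hI, hIs⟩ := ht.exists_ideal
      have hmem : ∀ v : L, v ∈ spanT x₀ e f ↔ v ∈ I := by
        intro v
        rw [← hIs]
        rfl
      rcases ht.converse_left hys h with h1 | h1 | h1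
      · exact Or.inl h1
      · exact Or.inr ⟨I, hI, (hmem y).mp hys, Or.inl ((hmem x).mp h1)⟩
      · exact Or.inr ⟨I, hI, (hmem y).mp hys,
          Or.inr ((nilpotent_iff I hI ((hmem y).mp hys)).mpr h1)⟩
    · left
      by_cases hom : ∀ X Y, om x y X Y = 0
      · have hk : killingForm ℂ L x y = 0 := by
          by_contra hne
          have h1 : orbitDim y ≤ 2 * 1 := by
            refine finrank_range_ad_le (W := LinearMap.ker (killingForm ℂ L y)) ?_ ?_
            · have h2 := LinearMap.finrank_range_add_finrank_ker (killingForm ℂ L y)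
              have h3 : finrank ℂ (LinearMap.range (killingForm ℂ L y)) ≤ 1 := by
                refine (Submodule.finrank_le _).trans ?_
                rw [Module.finrank_self]
              omega
            · intro X hX Y hY
              have h2 := hom X Y
              rw [om, LinearMap.mem_ker.mp hX, LinearMap.mem_ker.mp hY, zero_mul, zero_mul,
                sub_zero, add_zero] at h2
              exact (mul_eq_zero.mp h2).resolve_left hne
          omega
        refine ⟨?_, hk⟩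
        obtain ⟨X₀, hX₀⟩ := exists_kill hy
        refine ⟨-(killingForm ℂ L ⁅y, x⁆ X₀ / killingForm ℂ L y X₀), ?_⟩
        rw [neg_smul, ← lie_skew, neg_inj, ← sub_eq_zero]
        apply eq_zero_of_killing
        intro Y
        have h1 := hom X₀ Y
        rw [om, hk, zero_mul, zero_sub] at h1
        rw [map_sub, map_smul, LinearMap.sub_apply, LinearMap.smul_apply, smul_eq_mul]
        field_simp
        linear_combination - h1
      · push Not at hom
        obtain ⟨Y₀, Z₀, hne⟩ := hom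
        classical
        have h1 : orbitDim x ≤ 3 := by
          have h10 : LinearMap.range (LieAlgebra.ad ℂ L x : L →ₗ[ℂ] L)
              ≤ Submodule.span ℂ (({x, ⁅x, Y₀⁆, ⁅x, Z₀⁆} : Finset L) : Set L) := by
            rintro _ ⟨X, rfl⟩
            change ⁅x, X⁆ ∈ _
            have h2 := h X Y₀ Z₀
            have e1 : ⁅x, X⁆ = ((om x y Y₀ Z₀)⁻¹ * (om x y X ⁅Y₀, Z₀⁆ + om x y Y₀ ⁅Z₀, X⁆
                + om x y Z₀ ⁅X, Y₀⁆)) • x
                + (-(om x y Y₀ Z₀)⁻¹ * om x y Z₀ X) • ⁅x, Y₀⁆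
                + (-(om x y Y₀ Z₀)⁻¹ * om x y X Y₀) • ⁅x, Z₀⁆ := by
              rw [← lie_skew X x, ← lie_skew Y₀ x, ← lie_skew Z₀ x] at h2
              have h3 : (om x y Y₀ Z₀)⁻¹ * om x y Y₀ Z₀ = 1 := inv_mul_cancel₀ hne
              have h4 : ⁅x, X⁆ = ((om x y Y₀ Z₀)⁻¹ * om x y Y₀ Z₀) • ⁅x, X⁆ := by
                rw [h3, one_smul]
              rw [h4]
              linear_combination (norm := module) -(om x y Y₀ Z₀)⁻¹ • h2
            rw [e1, Finset.coe_insert, Finset.coe_insert, Finset.coe_singleton,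
              Submodule.mem_span_triple]
            exact ⟨_, _, _, rfl⟩
          refine (Submodule.finrank_mono h10).trans ((finrank_span_finset_le_card _).trans ?_)
          exact Finset.card_le_three
        obtain ⟨x₀, e, f, lam, k, ht, hxs⟩ := exists_triple_of_small hx h1
        have hys : y ∉ spanT x₀ e f := fun hys => hsm (ht.orbitDim_le hys)
        obtain ⟨h2, h3⟩ := ht.converse_right hx hxs hys h
        exact ⟨⟨0, by rw [h2, zero_smul]⟩, h3⟩
  · rintro (⟨⟨t, h1⟩, h2⟩ | ⟨I, hI, hyI, h1⟩)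
    · exact cond_of_a h1 h2
    · obtain ⟨x₀, e, f, lam, k, ht, hs⟩ := exists_triple_of_ideal hy I hI hyI
      have hmem : ∀ v : L, v ∈ spanT x₀ e f ↔ v ∈ I := by
        intro v
        rw [← hs]
        rfl
      rcases h1 with h1 | h1
      · exact ht.cond_of_c ((hmem x).mpr h1) ((hmem y).mpr hyI)
      · exact ht.cond_of_b ((hmem y).mpr hyI) ((nilpotent_iff I hI hyI).mp h1)

end Pool.Agent.Work.MP_3d4872_al.R1
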