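import Pool.Agent.Work.MP_3d4872_al.R1.Same

/-!
# MP_3d4872_al: the compatible brackets of rank one, assembly
-/

set_option autoImplicit false
set_option linter.unusedSectionVars false

namespace Pool.Agent.Work.MP_3d4872_al.R1

open Pool.Agent.Work.MP_3d4872_al Pool.Agent.Work.MP_3d4872_al.Sr Module

variable {L : Type*} [LieRing L] [LieAlgebra ℂ L] [FiniteDimensional ℂ L] [LieAlgebra.IsKilling ℂ L]

/-- The operators of rank at most one. -/
theorem rk_le_one_iff (R : L →ₗ[ℂ] L) : rk R ≤ 1 ↔ ∃ x y : L, R = rankOne x y := by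
  constructor
  · intro h
    obtain ⟨x, hx⟩ : ∃ x : L, ∀ v ∈ LinearMap.range R, ∃ t : ℂ, v = t • x := by
      obtain ⟨v, hv⟩ := finrank_le_one_iff.mp h
      refine ⟨v, fun w hw => ?_⟩
      obtain ⟨c, hc⟩ := hv ⟨w, hw⟩
      exact ⟨c, (congrArg Subtype.val hc).symm⟩
    by_cases hx0 : x = 0
    · refine ⟨0, 0, ?_⟩
      ext X
      obtain ⟨t, ht⟩ := hx (R X) ⟨X, rfl⟩
      rw [ht, hx0, rankOne_apply, smul_zero, smul_zero]
    · obtain ⟨φ, hφ⟩ : ∃ φ : L →ₗ[ℂ] ℂ, φ x = 1 := by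
        have h1 : ∃ φ : L →ₗ[ℂ] ℂ, φ x ≠ 0 := by
          by_contra hcon
          push Not at hcon
          exact hx0 ((Module.forall_dual_apply_eq_zero_iff ℂ _).mp hcon)
        obtain ⟨φ, hφ⟩ := h1
        exact ⟨(φ x)⁻¹ • φ, by
          rw [LinearMap.smul_apply, smul_eq_mul, inv_mul_cancel₀ hφ]⟩
      obtain ⟨y, hy⟩ := exists_killing_eq (L := L) (φ ∘ₗ R)
      refine ⟨x, y, ?_⟩
      ext X
      obtain ⟨t, ht⟩ := hx (R X) ⟨X, rfl⟩
      rw [rankOne_apply, hy, LinearMap.comp_apply, ht, map_smul, hφ, smul_eq_mul, mul_one]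
  · rintro ⟨x, y, rfl⟩
    refine (Submodule.finrank_mono (t := Submodule.span ℂ {x}) ?_).trans ?_
    swap
    · exact (finrank_span_le_card ({x} : Set L)).trans (by simp)
    rintro _ ⟨X, rfl⟩
    exact Submodule.smul_mem _ _ (Submodule.mem_span_singleton_self x)

theorem lie_iff (c : ℂ) {x y : L} (hx : x ≠ 0) (hy : y ≠ 0) :
    (IsLieBr (br c (rankOne x y)) ↔ PairType x y) ∧
      (Compatible (br c (rankOne x y)) ↔ PairType x y) := by
  have h := (jacobi_iff_cond x y).trans (cond_iff hx hy)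
  exact ⟨(isLieBr_shift c _).trans h, (compatible_shift c _).trans h⟩

theorem br_eq_iff (hL : finrank ℂ L ≠ 3) {c c' : ℂ} {x y x' y' : L} (hx : x ≠ 0)
    (hx' : x' ≠ 0) (hy' : y' ≠ 0) :
    br c (rankOne x y) = br c' (rankOne x' y') ↔ c = c' ∧ SamePair x y x' y' := by
  have hL' : 4 < finrank ℂ L := by
    by_contra hcon
    exact hL (finrank_eq_three hx (by omega))
  constructor
  · intro h
    have h1 := scalar_eq hL' h
    subst h1
    exact ⟨rfl, pair_eq hx hx' hy' (add_left_cancel h)⟩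
  · rintro ⟨rfl, h⟩
    unfold br
    rw [eq_of_same hx h]

lemma rankOne_conj (φ : L ≃ₗ⁅ℂ⁆ L) (x y X : L) :
    rankOne (φ x) (φ y) (φ X) = φ (rankOne x y X) := by
  rw [rankOne_apply, rankOne_apply, LieAlgebra.killingForm_of_equiv_apply, map_smul]

lemma br_conj (φ : L ≃ₗ⁅ℂ⁆ L) (c : ℂ) (x y X Y : L) :
    br c (rankOne (φ x) (φ y)) (φ X) (φ Y) = φ (br c (rankOne x y) X Y) := by
  unfold br
  simp only [LinearMap.add_apply, LinearMap.smul_apply, ownBracket_apply, opBracket_apply]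
  rw [← LieEquiv.map_lie, rankOne_conj, rankOne_conj, rankOne_conj, ← LieEquiv.map_lie,
    ← LieEquiv.map_lie, map_add, map_smul, map_sub, map_add]

theorem equiv_iff (hL : finrank ℂ L ≠ 3) {c c' : ℂ} {x y x' y' : L} (hx : x ≠ 0)
    (hx' : x' ≠ 0) (hy' : y' ≠ 0) :
    Equivalent (br c (rankOne x y)) (br c' (rankOne x' y')) ↔
      c' = c ∧ ∃ φ : L ≃ₗ⁅ℂ⁆ L, SamePair x y (φ x') (φ y') := by
  have key : ∀ φ : L ≃ₗ⁅ℂ⁆ L,
      (∀ X Y, br c' (rankOne x' y') X Y = φ.symm (br c (rankOne x y) (φ X) (φ Y))) ↔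
        br c (rankOne x y) = br c' (rankOne (φ x') (φ y')) := by
    intro φ
    constructor
    · intro h
      ext X Y
      have h1 := br_conj φ c' x' y' (φ.symm X) (φ.symm Y)
      rw [h, LieEquiv.apply_symm_apply, LieEquiv.apply_symm_apply,
        LieEquiv.apply_symm_apply] at h1
      exact h1.symm
    · intro h X Y
      rw [h, br_conj, LieEquiv.symm_apply_apply]
  have hφ : ∀ (φ : L ≃ₗ⁅ℂ⁆ L) (v : L), v ≠ 0 → φ v ≠ 0 := by
    intro φ v hv h
    apply hv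
    rw [← φ.symm_apply_apply v, h, map_zero]
  constructor
  · rintro ⟨φ, h⟩
    obtain ⟨h1, h2⟩ := (br_eq_iff hL hx (hφ φ x' hx') (hφ φ y' hy')).mp ((key φ).mp h)
    exact ⟨h1.symm, φ, h2⟩
  · rintro ⟨rfl, φ, h⟩
    exact ⟨φ, (key φ).mpr ((br_eq_iff hL hx (hφ φ x' hx') (hφ φ y' hy')).mpr ⟨rfl, h⟩)⟩

end Pool.Agent.Work.MP_3d4872_al.R1
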