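import Pool.Agent.Work.MP_3d4872_al.R1.Three

/-!
# MP_3d4872_al: the obstruction of an operator of rank one
-/

set_option autoImplicit false
set_option linter.unusedSectionVars false

namespace Pool.Agent.Work.MP_3d4872_al.R1

open Pool.Agent.Work.MP_3d4872_al Pool.Agent.Work.MP_3d4872_al.Sr Module

section General

variable {L : Type*} [LieRing L] [LieAlgebra ℂ L]

/-- The Nijenhuis torsion `[RX, RY] - R[RX, Y] - R[X, RY] + R²[X, Y]`. -/
def tc (R : L →ₗ[ℂ] L) (X Y : L) : L :=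
  ⁅R X, R Y⁆ - R ⁅R X, Y⁆ - R ⁅X, R Y⁆ + R (R ⁅X, Y⁆)

lemma jacobi_tc (R : L →ₗ[ℂ] L) (X Y Z : L) :
    opBracket R X (opBracket R Y Z) + opBracket R Y (opBracket R Z X)
      + opBracket R Z (opBracket R X Y) =
    -((tc R X ⁅Y, Z⁆ + ⁅X, tc R Y Z⁆) + (tc R Y ⁅Z, X⁆ + ⁅Y, tc R Z X⁆)
      + (tc R Z ⁅X, Y⁆ + ⁅Z, tc R X Y⁆)) := by
  have j1 := lie_jacobi (R X) (R Y) Z
  have j2 := lie_jacobi (R X) Y (R Z)
  have j3 := lie_jacobi X (R Y) (R Z)
  have k1 := congrArg R (lie_jacobi (R X) Y Z)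
  have k2 := congrArg R (lie_jacobi X (R Y) Z)
  have k3 := congrArg R (lie_jacobi X Y (R Z))
  have l1 := congrArg R (congrArg R (lie_jacobi X Y Z))
  simp only [map_add, map_zero] at k1 k2 k3 l1
  simp only [opBracket_apply, tc, map_add, map_sub, lie_add, lie_sub]
  linear_combination (norm := abel) j1 + j2 + j3 - k1 - k2 - k3 + l1

/-- The scalar of the torsion of `X ↦ κ(y, X) x`. -/
noncomputable def om (x y X Y : L) : ℂ :=
  killingForm ℂ L x y * killingForm ℂ L y ⁅X, Y⁆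
    - killingForm ℂ L y X * killingForm ℂ L ⁅y, x⁆ Y
    + killingForm ℂ L y Y * killingForm ℂ L ⁅y, x⁆ X

variable [FiniteDimensional ℂ L] [LieAlgebra.IsKilling ℂ L]

lemma tc_rankOne (x y X Y : L) : tc (rankOne x y) X Y = om x y X Y • x := by
  have h1 : killingForm ℂ L y ⁅X, x⁆ = - killingForm ℂ L ⁅y, x⁆ X := by
    rw [← lie_skew, map_neg, LieModule.traceForm_apply_lie_apply]
  have h2 : killingForm ℂ L y ⁅x, Y⁆ = killingForm ℂ L ⁅y, x⁆ Y := by
    rw [LieModule.traceForm_apply_lie_apply]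
  have h3 : killingForm ℂ L y x = killingForm ℂ L x y := killing_comm _ _
  simp only [tc, om, rankOne_apply, smul_lie, lie_smul, lie_self, smul_zero, map_smul,
    smul_eq_mul, h1, h2, h3]
  module

/-- The condition of the Jacobi identity for the bracket of `X ↦ κ(y, X) x`. -/
def Cond (x y : L) : Prop :=
  ∀ X Y Z : L, (om x y X ⁅Y, Z⁆ • x + om x y Y Z • ⁅X, x⁆)
    + (om x y Y ⁅Z, X⁆ • x + om x y Z X • ⁅Y, x⁆)
    + (om x y Z ⁅X, Y⁆ • x + om x y X Y • ⁅Z, x⁆) = 0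

lemma jacobi_iff_cond (x y : L) :
    (∀ X Y Z, opBracket (rankOne x y) X (opBracket (rankOne x y) Y Z)
      + opBracket (rankOne x y) Y (opBracket (rankOne x y) Z X)
      + opBracket (rankOne x y) Z (opBracket (rankOne x y) X Y) = 0) ↔ Cond x y := by
  have h : ∀ X Y Z, opBracket (rankOne x y) X (opBracket (rankOne x y) Y Z)
      + opBracket (rankOne x y) Y (opBracket (rankOne x y) Z X)
      + opBracket (rankOne x y) Z (opBracket (rankOne x y) X Y)
      = -((om x y X ⁅Y, Z⁆ • x + om x y Y Z • ⁅X, x⁆)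
    + (om x y Y ⁅Z, X⁆ • x + om x y Z X • ⁅Y, x⁆)
    + (om x y Z ⁅X, Y⁆ • x + om x y X Y • ⁅Z, x⁆)) := by
    intro X Y Z
    rw [jacobi_tc]
    simp only [tc_rankOne, lie_smul]
  constructor
  · intro h1 X Y Z
    have := h1 X Y Z
    rw [h] at this
    exact neg_eq_zero.mp this
  · intro h1 X Y Z
    rw [h, h1, neg_zero]

lemma om_neg (x y X Y : L) : om x y Y X = - om x y X Y := by
  have h : killingForm ℂ L y ⁅Y, X⁆ = - killingForm ℂ L y ⁅X, Y⁆ := by
    rw [← lie_skew, map_neg]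
  rw [om, om, h]
  ring

end General

end Pool.Agent.Work.MP_3d4872_al.R1
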