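import Pool.Agent.Work.MP_3d4872_al.R1.Small

/-!
# MP_3d4872_al: an element with an orbit of dimension at most three lies in a three-dimensional ideal
-/

set_option autoImplicit false
set_option linter.unusedSectionVars false

namespace Pool.Agent.Work.MP_3d4872_al.R1

open Pool.Agent.Work.MP_3d4872_al Pool.Agent.Work.MP_3d4872_al.Sr Module

variable {L : Type*} [LieRing L] [LieAlgebra ℂ L] [FiniteDimensional ℂ L] [LieAlgebra.IsKilling ℂ L]

/-- Orbits have even dimension. -/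
theorem even_orbitDim (x : L) : Even (orbitDim x) := by
  by_contra hodd
  rw [Nat.not_even_iff_odd] at hodd
  set A : L →ₗ[ℂ] L := (LieAlgebra.ad ℂ L x : L →ₗ[ℂ] L) with hA
  set n := orbitDim x with hn
  let b : Basis (Fin n) ℂ (LinearMap.range A) := Module.finBasisOfFinrankEq ℂ _ rfl
  have hpre : ∀ i, ∃ a : L, A a = (b i : L) := fun i => (b i).2
  choose a ha using hpre
  let M : Matrix (Fin n) (Fin n) ℂ := Matrix.of fun i j => killingForm ℂ L (A (a i)) (a j)
  have hM : ∀ i j, M i j = killingForm ℂ L ⁅x, a i⁆ (a j) := fun i j => rfl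
  have hMt : M.transpose = -M := by
    ext i j
    rw [Matrix.transpose_apply, Matrix.neg_apply, hM, hM, killing_skew', killing_comm]
  have hdet : M.det = 0 := by
    have h1 : M.det = (-1) ^ n * M.det := by
      conv_lhs => rw [← Matrix.det_transpose, hMt, Matrix.det_neg, Fintype.card_fin]
    rw [hodd.neg_one_pow] at h1
    have h2 : (2 : ℂ) * M.det = 0 := by linear_combination h1
    exact (mul_eq_zero.mp h2).resolve_left two_ne_zero
  obtain ⟨v, hv0, hv⟩ := Matrix.exists_mulVec_eq_zero_iff.mpr hdet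
  set w : L := ∑ j, v j • a j with hw
  have h1 : ∀ i, killingForm ℂ L ⁅x, a i⁆ w = 0 := by
    intro i
    have h2 := congrFun hv i
    rw [Matrix.mulVec, dotProduct] at h2
    rw [hw, map_sum]
    refine Eq.trans ?_ h2
    refine Finset.sum_congr rfl fun j _ => ?_
    rw [map_smul, smul_eq_mul, hM, mul_comm]
  have h2 : A w = 0 := by
    apply eq_zero_of_killing
    intro Y
    have h3 : killingForm ℂ L (A w) Y = - killingForm ℂ L (A Y) w := by
      change killingForm ℂ L ⁅x, w⁆ Y = - killingForm ℂ L ⁅x, Y⁆ w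
      rw [killing_skew', killing_comm]
    rw [h3, neg_eq_zero]
    obtain ⟨c, hc⟩ : ∃ c : Fin n → ℂ, A Y = ∑ i, c i • A (a i) := by
      refine ⟨fun i => b.repr ⟨A Y, LinearMap.mem_range_self A Y⟩ i, ?_⟩
      have h5 := congrArg Subtype.val (b.sum_repr ⟨A Y, LinearMap.mem_range_self A Y⟩)
      simp only [Submodule.coe_sum, Submodule.coe_smul] at h5
      refine h5.symm.trans ?_
      exact Finset.sum_congr rfl fun i _ => by rw [ha]
    clear_value w
    rw [hc, map_sum, LinearMap.sum_apply]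
    refine Finset.sum_eq_zero fun i _ => ?_
    rw [map_smul, LinearMap.smul_apply]
    have := h1 i
    change killingForm ℂ L (A (a i)) w = 0 at this
    rw [this, smul_zero]
  have h3 : ∑ j, v j • b j = 0 := by
    apply Subtype.ext
    rw [Submodule.coe_sum, Submodule.coe_zero, ← h2, hw, map_sum]
    refine Finset.sum_congr rfl fun j _ => ?_
    rw [map_smul, ha]
    rfl
  apply hv0
  ext j
  exact Fintype.linearIndependent_iff.mp b.linearIndependent v h3 j

/-- The span of a triple. -/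
def spanT (x e f : L) : Submodule ℂ L := Submodule.span ℂ {x, e, f}

lemma mem_spanT {x e f Y : L} : Y ∈ spanT x e f ↔ ∃ a b c : ℂ, Y = a • x + b • e + c • f := by
  rw [spanT, Submodule.mem_span_triple]
  constructor
  · rintro ⟨a, b, c, h⟩
    exact ⟨a, b, c, h.symm⟩
  · rintro ⟨a, b, c, h⟩
    exact ⟨a, b, c, h.symm⟩

/-- A nilpotent element with an orbit of dimension at most two. -/
theorem exists_h_of_nilpotent {x : L} (hx : x ≠ 0) (hr : orbitDim x ≤ 2)
    (hn : IsNilpotent (LieAlgebra.ad ℂ L x)) :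
    ∃ h : L, ⁅h, x⁆ = (2 : ℂ) • x ∧ orbitDim h ≤ 2 := by
  set A : L →ₗ[ℂ] L := (LieAlgebra.ad ℂ L x : L →ₗ[ℂ] L) with hA
  have hAa : ∀ Y, A Y = ⁅x, Y⁆ := fun Y => rfl
  -- `x` is in the range
  obtain ⟨u, hu⟩ : ∃ u, ⁅x, u⁆ = x := by
    by_contra hcon
    push Not at hcon
    have h1 : x ∉ LinearMap.range A := by
      rintro ⟨u, hu⟩
      exact hcon u hu
    obtain ⟨ℓ, hℓ0, hℓ⟩ := Submodule.exists_dual_map_eq_bot_of_notMem h1 inferInstance
    obtain ⟨z, hz⟩ := exists_killing_eq (L := L) ℓ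
    have h2 : ⁅z, x⁆ = 0 := by
      apply eq_zero_of_killing
      intro Y
      rw [LieModule.traceForm_apply_lie_apply, hz]
      have : ℓ (A Y) ∈ (LinearMap.range A).map ℓ := ⟨A Y, ⟨Y, rfl⟩, rfl⟩
      rw [hℓ] at this
      change ℓ (A Y) = 0
      simpa using this
    have h3 : Commute (LieAlgebra.ad ℂ L z : Module.End ℂ L) (LieAlgebra.ad ℂ L x) := by
      apply LinearMap.ext
      intro Y
      change ⁅z, ⁅x, Y⁆⁆ = ⁅x, ⁅z, Y⁆⁆
      rw [leibniz_lie, h2, zero_lie, zero_add]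
    have h5 : IsNilpotent (LieAlgebra.ad ℂ L z * LieAlgebra.ad ℂ L x : Module.End ℂ L) :=
      h3.isNilpotent_mul_left hn
    apply hℓ0
    rw [← hz, killingForm_apply_apply]
    exact (LinearMap.isNilpotent_trace_of_isNilpotent h5).eq_zero
  -- the cube is zero
  have hlt : ∀ V : Submodule ℂ L, V ≠ ⊥ → V.map A ≤ V → finrank ℂ (V.map A) < finrank ℂ V := by
    intro V hV hle
    refine Submodule.finrank_lt_finrank_of_lt (lt_of_le_of_ne hle fun heq => hV ?_)
    obtain ⟨k, hk⟩ := hn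
    have h1 : ∀ j : ℕ, V.map (A ^ j) = V := by
      intro j
      induction j with
      | zero => rw [pow_zero]; exact Submodule.map_id V
      | succ j ih =>
        rw [pow_succ]
        change V.map ((A ^ j : Module.End ℂ L) ∘ₗ A) = V
        rw [Submodule.map_comp, heq, ih]
    rw [← h1 k]
    have hk' : A ^ k = 0 := hk
    rw [hk', Submodule.map_zero]
  obtain ⟨a, ha⟩ : ∃ a : L, ⁅x, ⁅x, a⁆⁆ ≠ 0 := by
    by_contra hcon
    push Not at hcon
    exact hx (eq_zero_of_sq hcon)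
  set W := LinearMap.range A with hW
  have hr' : finrank ℂ W ≤ 2 := hr
  have hW1 : W.map A ≤ W := by
    rintro _ ⟨Y, -, rfl⟩
    exact ⟨Y, rfl⟩
  have hW2 : (W.map A).map A ≤ W.map A := Submodule.map_mono hW1
  have hcube : ∀ Y : L, ⁅x, ⁅x, ⁅x, Y⁆⁆⁆ = 0 := by
    intro Y
    have h0 : W ≠ ⊥ := by
      intro h
      apply ha
      have : ⁅x, a⁆ ∈ W := ⟨a, rfl⟩
      rw [h, Submodule.mem_bot] at this
      rw [this, lie_zero]
    have h1 := hlt W h0 hW1
    have h2 : (W.map A) ≠ ⊥ := by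
      intro h
      apply ha
      have : ⁅x, ⁅x, a⁆⁆ ∈ W.map A := ⟨⁅x, a⁆, ⟨a, rfl⟩, rfl⟩
      rwa [h, Submodule.mem_bot] at this
    have h3 := hlt (W.map A) h2 hW2
    have h4 : finrank ℂ ((W.map A).map A) = 0 := by omega
    rw [Submodule.finrank_eq_zero] at h4
    have : ⁅x, ⁅x, ⁅x, Y⁆⁆⁆ ∈ (W.map A).map A := ⟨⁅x, ⁅x, Y⁆⁆, ⟨⁅x, Y⁆, ⟨Y, rfl⟩, rfl⟩, rfl⟩
    rwa [h4, Submodule.mem_bot] at this
  -- the range is spanned by `[x, a]` and `[x, [x, a]]`
  have hspan : ∀ Y ∈ W, ∃ s t : ℂ, Y = s • ⁅x, a⁆ + t • ⁅x, ⁅x, a⁆⁆ := by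
    have hind : LinearIndependent ℂ ![⁅x, a⁆, ⁅x, ⁅x, a⁆⁆] := by
      rw [LinearIndependent.pair_iff]
      intro s t hst
      have h1 := congrArg (fun Y : L => ⁅x, Y⁆) hst
      simp only [lie_add, lie_smul, hcube, smul_zero, add_zero, lie_zero] at h1
      have hs : s = 0 := (smul_eq_zero.mp h1).resolve_right ha
      rw [hs, zero_smul, zero_add] at hst
      exact ⟨hs, (smul_eq_zero.mp hst).resolve_right ha⟩
    have h1 := finrank_span_eq_card hind
    have h2 : Set.range ![⁅x, a⁆, ⁅x, ⁅x, a⁆⁆] = ({⁅x, a⁆, ⁅x, ⁅x, a⁆⁆} : Set L) := by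
      ext Y
      simp
      exact or_comm
    rw [h2, Fintype.card_fin] at h1
    have h3 : Submodule.span ℂ ({⁅x, a⁆, ⁅x, ⁅x, a⁆⁆} : Set L) = W := by
      apply Submodule.eq_of_le_of_finrank_le
      · rw [Submodule.span_le]
        rintro Y (rfl | rfl)
        · exact ⟨a, rfl⟩
        · exact ⟨⁅x, a⁆, rfl⟩
      · rw [h1]
        exact hr'
    intro Y hY
    rw [← h3, Submodule.mem_span_pair] at hY
    obtain ⟨s, t, h⟩ := hY
    exact ⟨s, t, h.symm⟩
  have hker : ∀ Y ∈ W, ⁅x, Y⁆ = 0 → ∃ t : ℂ, Y = t • ⁅x, ⁅x, a⁆⁆ := by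
    intro Y hY h0
    obtain ⟨s, t, rfl⟩ := hspan Y hY
    rw [lie_add, lie_smul, lie_smul, hcube, smul_zero, add_zero] at h0
    have hs : s = 0 := (smul_eq_zero.mp h0).resolve_right ha
    exact ⟨t, by rw [hs, zero_smul, zero_add]⟩
  obtain ⟨β, hβ⟩ := hker x ⟨u, hu⟩ (lie_self x)
  have hβ0 : β ≠ 0 := by
    rintro rfl
    exact hx (by rw [hβ, zero_smul])
  -- the element `h`
  set a' : L := (-2 * β) • a with ha'
  set h : L := ⁅x, a'⁆ with hh
  have hxh : ⁅x, h⁆ = -((2 : ℂ) • x) := by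
    rw [hh, ha', lie_smul, lie_smul, mul_smul, ← hβ, neg_smul]
  have hhx : ⁅h, x⁆ = (2 : ℂ) • x := by rw [← lie_skew, hxh, neg_neg]
  refine ⟨h, hhx, ?_⟩
  clear_value h a'
  have hh2 : ∀ Y : L, ∃ s t : ℂ, ⁅h, Y⁆ = s • x + t • ⁅h, a'⁆ := by
    intro Y
    obtain ⟨s, t, hst⟩ := hspan ⁅x, Y⁆ ⟨Y, rfl⟩
    have e1 : ⁅x, Y⁆ = (-(2 * β)⁻¹ * s) • h + (β⁻¹ * t) • x := by
      have h5 : (-(2 * β)⁻¹ * s) • h = s • ⁅x, a⁆ := by
        rw [hh, ha', lie_smul, smul_smul]
        congr 1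
        field_simp
      have h6 : (β⁻¹ * t) • x = t • ⁅x, ⁅x, a⁆⁆ := by
        conv_lhs => rw [hβ]
        rw [smul_smul]
        congr 1
        field_simp
      rw [h5, h6, hst]
    set s' := -(2 * β)⁻¹ * s
    set t' := β⁻¹ * t
    set z : L := Y - s' • a' + (2⁻¹ * t') • h with hz
    have hxz : ⁅x, z⁆ = 0 := by
      rw [hz, lie_add, lie_sub, lie_smul, lie_smul, hxh, e1, ← hh]
      module
    have hhz : ⁅h, z⁆ ∈ W := by
      have h7 : ⁅h, z⁆ = ⁅x, ⁅a', z⁆⁆ := by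
        rw [hh, lie_lie, hxz, lie_zero, sub_zero]
      rw [h7]
      exact ⟨⁅a', z⁆, rfl⟩
    have hxhz : ⁅x, ⁅h, z⁆⁆ = 0 := by
      rw [leibniz_lie, hxh, hxz, lie_zero, add_zero, neg_lie, smul_lie, hxz, smul_zero, neg_zero]
    obtain ⟨q, hq⟩ := hker _ hhz hxhz
    refine ⟨q * β⁻¹, s', ?_⟩
    have h8 : (q * β⁻¹) • x = q • ⁅x, ⁅x, a⁆⁆ := by
      conv_lhs => rw [hβ]
      rw [smul_smul]
      congr 1
      field_simp
    have h9 : Y = z + s' • a' - (2⁻¹ * t') • h := by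
      rw [hz]
      abel
    rw [h8, ← hq]
    conv_lhs => rw [h9]
    rw [lie_sub, lie_add, lie_smul, lie_smul, lie_self, smul_zero, sub_zero]
  classical
  have h10 : LinearMap.range (LieAlgebra.ad ℂ L h : L →ₗ[ℂ] L)
      ≤ Submodule.span ℂ (({x, ⁅h, a'⁆} : Finset L) : Set L) := by
    rintro _ ⟨Y, rfl⟩
    obtain ⟨s, t, hst⟩ := hh2 Y
    rw [Finset.coe_insert, Finset.coe_singleton, Submodule.mem_span_pair]
    exact ⟨s, t, hst.symm⟩
  refine (Submodule.finrank_mono h10).trans ((finrank_span_finset_le_card _).trans ?_)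
  exact Finset.card_le_two

/-- An element with an orbit of dimension at most three lies in a three-dimensional ideal. -/
theorem exists_triple_of_small {x : L} (hx : x ≠ 0) (hr : orbitDim x ≤ 3) :
    ∃ (x₀ e f : L) (lam k : ℂ), IsTriple x₀ e f lam k ∧ x ∈ spanT x₀ e f := by
  have hr2 : orbitDim x ≤ 2 := by
    obtain ⟨k, hk⟩ := even_orbitDim x
    omega
  by_cases hev : ∃ (lam : ℂ) (e : L), lam ≠ 0 ∧ e ≠ 0 ∧ ⁅x, e⁆ = lam • e
  · obtain ⟨lam, e, hl, he0, he⟩ := hev
    obtain ⟨f, k, ht⟩ := exists_triple hl he0 he hr2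
    exact ⟨x, e, f, lam, k, ht, mem_spanT.mpr ⟨1, 0, 0, by simp⟩⟩
  · push Not at hev
    have hn : IsNilpotent (LieAlgebra.ad ℂ L x) := by
      have h1 := Module.End.iSup_maxGenEigenspace_eq_top (LieAlgebra.ad ℂ L x : Module.End ℂ L)
      have h2 : ∀ μ : ℂ, μ ≠ 0 →
          (LieAlgebra.ad ℂ L x : Module.End ℂ L).maxGenEigenspace μ = ⊥ := by
        intro μ hμ
        by_contra hne
        rw [Module.End.maxGenEigenspace_eq] at hne
        have h3 : (LieAlgebra.ad ℂ L x : Module.End ℂ L).HasEigenvalue μ :=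
          Module.End.hasEigenvalue_of_hasGenEigenvalue (k := Module.End.maxGenEigenspaceIndex
            (LieAlgebra.ad ℂ L x : Module.End ℂ L) μ) hne
        obtain ⟨e, he⟩ := h3.exists_hasEigenvector
        exact hev μ e hμ he.2 he.apply_eq_smul
      have h4 : (LieAlgebra.ad ℂ L x : Module.End ℂ L).maxGenEigenspace 0 = ⊤ := by
        rw [← h1]
        apply le_antisymm
        · exact le_iSup _ 0
        · refine iSup_le fun μ => ?_
          by_cases hμ : μ = 0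
          · rw [hμ]
          · rw [h2 μ hμ]
            exact bot_le
      rw [Module.End.maxGenEigenspace_eq] at h4
      refine ⟨Module.End.maxGenEigenspaceIndex (LieAlgebra.ad ℂ L x : Module.End ℂ L) 0, ?_⟩
      ext Y
      have h5 : Y ∈ (LieAlgebra.ad ℂ L x : Module.End ℂ L).genEigenspace 0
          (Module.End.maxGenEigenspaceIndex (LieAlgebra.ad ℂ L x : Module.End ℂ L) 0) := by
        rw [h4]
        trivial
      rw [Module.End.mem_genEigenspace_nat, zero_smul, sub_zero] at h5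
      exact h5
    obtain ⟨h, hh, hr3⟩ := exists_h_of_nilpotent hx hr2 hn
    obtain ⟨f, k, ht⟩ := exists_triple two_ne_zero hx hh hr3
    exact ⟨h, x, f, 2, k, ht, mem_spanT.mpr ⟨0, 1, 0, by simp⟩⟩

end Pool.Agent.Work.MP_3d4872_al.R1
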