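import Pool.Agent.Work.MP_3d4872_al.R1.Omega

/-!
# MP_3d4872_al: the compatible brackets of rank one
-/

set_option autoImplicit false
set_option linter.unusedSectionVars false

namespace Pool.Agent.Work.MP_3d4872_al.R1

open Pool.Agent.Work.MP_3d4872_al Pool.Agent.Work.MP_3d4872_al.Sr Module

variable {L : Type*} [LieRing L] [LieAlgebra ℂ L] [FiniteDimensional ℂ L] [LieAlgebra.IsKilling ℂ L]

lemma cond_of_om {x y : L} (h : ∀ X Y, om x y X Y = 0) : Cond x y := by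
  intro X Y Z
  simp [h]

lemma cond_of_a {x y : L} {t : ℂ} (h : ⁅x, y⁆ = t • y) (hk : killingForm ℂ L x y = 0) :
    Cond x y := by
  apply cond_of_om
  intro X Y
  have h1 : ⁅y, x⁆ = -(t • y) := by rw [← lie_skew, h]
  rw [om, hk, h1, map_neg, map_smul, LinearMap.neg_apply, LinearMap.neg_apply,
    LinearMap.smul_apply, LinearMap.smul_apply, smul_eq_mul, smul_eq_mul]
  ring

namespace IsTriple

variable {x₀ e f : L} {lam k : ℂ} (ht : IsTriple x₀ e f lam k)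

include ht

/-- The torsion scalar for `y` in a three-dimensional ideal. -/
lemma om_eq {x y u z : L} (hy : y ∈ spanT x₀ e f) (hu : u ∈ spanT x₀ e f) (hx : x = u + z)
    (hz : ∀ v ∈ spanT x₀ e f, killingForm ℂ L v z = 0) (hz' : ∀ v ∈ spanT x₀ e f, ⁅v, z⁆ = 0)
    (X Y : L) : om x y X Y = killingForm ℂ L y y * killingForm ℂ L u ⁅X, Y⁆ := by
  have h1 : ⁅y, x⁆ = ⁅y, u⁆ := by rw [hx, lie_add, hz' y hy, add_zero]
  have h2 : killingForm ℂ L x y = killingForm ℂ L u y := by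
    rw [killing_comm, hx, map_add, hz y hy, add_zero, killing_comm]
  have h3 : ⁅y, u⁆ ∈ spanT x₀ e f := ht.lie_mem_span y hu
  have s1 := congrArg (fun w => killingForm ℂ L w Y) (ht.star h3 hy X)
  have s2 := congrArg (fun w => killingForm ℂ L w ⁅X, Y⁆) (ht.star hu hy y)
  simp only [map_sub, map_smul, LinearMap.sub_apply, LinearMap.smul_apply, smul_eq_mul] at s1 s2
  have s3 : killingForm ℂ L ⁅⁅⁅y, u⁆, y⁆, X⁆ Y = killingForm ℂ L ⁅⁅y, u⁆, y⁆ ⁅X, Y⁆ :=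
    LieModule.traceForm_apply_lie_apply ℂ L L _ _ _
  rw [s3] at s1
  have h4 : ⁅⁅u, y⁆, y⁆ = -⁅⁅y, u⁆, y⁆ := by rw [← lie_skew u y, neg_lie]
  rw [h4, map_neg, LinearMap.neg_apply] at s2
  rw [om, h1, h2]
  linear_combination - s1 - s2

lemma killing_lie_decomp {x X Y u v z w : L} (hx : x ∈ spanT x₀ e f)
    (hu : u ∈ spanT x₀ e f) (hX : X = u + z) (hY : Y = v + w)
    (hz' : ∀ t ∈ spanT x₀ e f, ⁅t, z⁆ = 0) (hw : ∀ t ∈ spanT x₀ e f, killingForm ℂ L t w = 0) :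
    killingForm ℂ L x ⁅X, Y⁆ = killingForm ℂ L x ⁅u, v⁆ := by
  rw [← LieModule.traceForm_apply_lie_apply, ← LieModule.traceForm_apply_lie_apply, hX, hY,
    lie_add, hz' x hx, add_zero, map_add]
  have h1 : ⁅x, u⁆ ∈ spanT x₀ e f := ht.lie_mem_span x hu
  have h2 := hw _ h1
  change killingForm ℂ L ⁅x, u⁆ v + killingForm ℂ L ⁅x, u⁆ w = killingForm ℂ L ⁅x, u⁆ v
  rw [h2, add_zero]

lemma cyc_zero {x : L} (hx : x ∈ spanT x₀ e f) (X Y Z : L) :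
    killingForm ℂ L x ⁅Y, Z⁆ • ⁅X, x⁆ + killingForm ℂ L x ⁅Z, X⁆ • ⁅Y, x⁆
      + killingForm ℂ L x ⁅X, Y⁆ • ⁅Z, x⁆ = 0 := by
  obtain ⟨u1, z1, hu1, hX, hz1, hz1'⟩ := ht.decomp X
  obtain ⟨u2, z2, hu2, hY, hz2, hz2'⟩ := ht.decomp Y
  obtain ⟨u3, z3, hu3, hZ, hz3, hz3'⟩ := ht.decomp Z
  rw [ht.killing_lie_decomp hx hu2 hY hZ hz2' hz3, ht.killing_lie_decomp hx hu3 hZ hX hz3' hz1,
    ht.killing_lie_decomp hx hu1 hX hY hz1' hz2]
  have e1 : ⁅X, x⁆ = ⁅u1, x⁆ := by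
    rw [hX, add_lie, ← lie_skew z1 x, hz1' x hx, neg_zero, add_zero]
  have e2 : ⁅Y, x⁆ = ⁅u2, x⁆ := by
    rw [hY, add_lie, ← lie_skew z2 x, hz2' x hx, neg_zero, add_zero]
  have e3 : ⁅Z, x⁆ = ⁅u3, x⁆ := by
    rw [hZ, add_lie, ← lie_skew z3 x, hz3' x hx, neg_zero, add_zero]
  rw [e1, e2, e3]
  obtain ⟨a0, b0, c0, rfl⟩ := mem_spanT.mp hx
  obtain ⟨a1, b1, c1, rfl⟩ := mem_spanT.mp hu1
  obtain ⟨a2, b2, c2, rfl⟩ := mem_spanT.mp hu2
  obtain ⟨a3, b3, c3, rfl⟩ := mem_spanT.mp hu3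
  simp only [ht.lie_comb, ht.kill_comb]
  module

lemma cond_of_b {x y : L} (hy : y ∈ spanT x₀ e f) (hk : killingForm ℂ L y y = 0) : Cond x y := by
  obtain ⟨u, z, hu, hx, hz, hz'⟩ := ht.decomp x
  apply cond_of_om
  intro X Y
  rw [ht.om_eq hy hu hx hz hz', hk, zero_mul]

lemma cond_of_c {x y : L} (hx : x ∈ spanT x₀ e f) (hy : y ∈ spanT x₀ e f) : Cond x y := by
  have hom : ∀ X Y, om x y X Y = killingForm ℂ L y y * killingForm ℂ L x ⁅X, Y⁆ := by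
    intro X Y
    exact ht.om_eq hy hx (add_zero x).symm (by simp) (by simp) X Y
  intro X Y Z
  simp only [hom]
  have h1 := ht.cyc_zero hx X Y Z
  have h2 := congrArg (killingForm ℂ L x) (lie_jacobi X Y Z)
  simp only [map_add, map_zero] at h2
  have h3 : (killingForm ℂ L x ⁅X, ⁅Y, Z⁆⁆ + killingForm ℂ L x ⁅Y, ⁅Z, X⁆⁆
      + killingForm ℂ L x ⁅Z, ⁅X, Y⁆⁆) • x = 0 := by rw [h2, zero_smul]
  linear_combination (norm := module) (killingForm ℂ L y y) • h1 + (killingForm ℂ L y y) • h3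

lemma cube_zero {y : L} (hy : y ∈ spanT x₀ e f) (hk : killingForm ℂ L y y = 0) (Z : L) :
    ⁅y, ⁅y, ⁅y, Z⁆⁆⁆ = 0 := by
  obtain ⟨u, z, hu, hZ, hz, hz'⟩ := ht.decomp Z
  have h1 : ⁅y, Z⁆ = ⁅y, u⁆ := by rw [hZ, lie_add, hz' y hy, add_zero]
  have h2 := ht.star hu hy y
  rw [hk, zero_smul, zero_sub] at h2
  have h3 : ⁅y, ⁅y, u⁆⁆ = ⁅⁅u, y⁆, y⁆ := by
    rw [← lie_skew y ⁅y, u⁆, ← lie_skew y u, neg_lie, neg_neg]
  have h4 : (2 : ℂ) • ⁅y, ⁅y, ⁅y, u⁆⁆⁆ = 0 := by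
    rw [h3, ← lie_smul, ← h2, lie_neg, lie_smul, lie_self, smul_zero, neg_zero]
  rw [h1]
  exact (smul_eq_zero.mp h4).resolve_left two_ne_zero

end IsTriple

/-- The nilpotent elements of a three-dimensional ideal. -/
lemma nilpotent_iff {y : L} (I : LieIdeal ℂ L) (hI : finrank ℂ I = 3) (hy : y ∈ I) :
    IsNilpotent (LieAlgebra.ad ℂ L y) ↔ killingForm ℂ L y y = 0 := by
  constructor
  · intro h
    rw [killingForm_apply_apply]
    have h1 : IsNilpotent (LieAlgebra.ad ℂ L y * LieAlgebra.ad ℂ L y : Module.End ℂ L) :=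
      (Commute.refl _).isNilpotent_mul_left h
    exact (LinearMap.isNilpotent_trace_of_isNilpotent h1).eq_zero
  · intro h
    by_cases hy0 : y = 0
    · rw [hy0, map_zero]
      exact IsNilpotent.zero
    obtain ⟨x, e, f, lam, k, ht, hs⟩ := exists_triple_of_ideal hy0 I hI hy
    have hys : y ∈ spanT x e f := by
      rw [← hs]
      exact hy
    refine ⟨3, ?_⟩
    ext Z
    exact ht.cube_zero hys h Z

end Pool.Agent.Work.MP_3d4872_al.R1
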