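import Pool.Agent.Work.MP_3d4872_al.Defs

/-!
# MP_3d4872_al: the compatible brackets of rank one, definitions
-/

set_option autoImplicit false

namespace Pool.Agent.Work.MP_3d4872_al.R1

/-- The types of the pairs `(x, y)`: either `[x, y]` is a multiple of `y` and `κ(x, y) = 0`, or `y`
lies in a three-dimensional ideal `I`, and `x` lies in `I` or `ad y` is nilpotent. -/
def PairType {L : Type*} [LieRing L] [LieAlgebra ℂ L] (x y : L) : Prop :=
  ((∃ t : ℂ, ⁅x, y⁆ = t • y) ∧ killingForm ℂ L x y = 0) ∨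
    ∃ I : LieIdeal ℂ L, Module.finrank ℂ I = 3 ∧ y ∈ I ∧
      (x ∈ I ∨ IsNilpotent (LieAlgebra.ad ℂ L y))

/-- `(x', y') = (s x, s⁻¹ y)`, or `x` and `y` lie in a three-dimensional ideal and
`(x', y') = (s y, s⁻¹ x)`, for a nonzero complex number `s`. -/
def SamePair {L : Type*} [LieRing L] [LieAlgebra ℂ L] (x y x' y' : L) : Prop :=
  ∃ s : ℂ, s ≠ 0 ∧ ((x' = s • x ∧ y' = s⁻¹ • y) ∨
    ((∃ I : LieIdeal ℂ L, Module.finrank ℂ I = 3 ∧ x ∈ I ∧ y ∈ I) ∧
      x' = s • y ∧ y' = s⁻¹ • x))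

end Pool.Agent.Work.MP_3d4872_al.R1
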