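import Pool.Agent.Work.MP_3d4872_al.R1.Converse
import Pool.Agent.Work.MP_3d4872_al.R1.RDefs

/-!
# MP_3d4872_al: uniqueness of the pair of a compatible bracket of rank one
-/

set_option autoImplicit false
set_option linter.unusedSectionVars false

namespace Pool.Agent.Work.MP_3d4872_al.R1

open Pool.Agent.Work.MP_3d4872_al Pool.Agent.Work.MP_3d4872_al.Sr Module

section Factor

variable {V : Type*} [AddCommGroup V] [Module ℂ V]

lemma prod_zero {a b : V →ₗ[ℂ] ℂ} (h : ∀ X, a X * b X = 0) : a = 0 ∨ b = 0 := by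
  by_contra hcon
  push Not at hcon
  obtain ⟨ha, hb⟩ := hcon
  obtain ⟨X, hX⟩ : ∃ X, a X ≠ 0 := by
    by_contra hc
    push Not at hc
    exact ha (LinearMap.ext hc)
  obtain ⟨Y, hY⟩ : ∃ Y, b Y ≠ 0 := by
    by_contra hc
    push Not at hc
    exact hb (LinearMap.ext hc)
  have h1 := (mul_eq_zero.mp (h X)).resolve_left hX
  have h2 := (mul_eq_zero.mp (h Y)).resolve_right hY
  have h3 := h (X + Y)
  rw [map_add, map_add, h1, h2, add_zero, zero_add] at h3
  rcases mul_eq_zero.mp h3 with h4 | h4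
  · exact hX h4
  · exact hY h4

lemma smul_of_ker {a b : V →ₗ[ℂ] ℂ} (ha : a ≠ 0) (h : ∀ X, a X = 0 → b X = 0) :
    ∃ s : ℂ, b = s • a := by
  obtain ⟨X, hX⟩ : ∃ X, a X ≠ 0 := by
    by_contra hc
    push Not at hc
    exact ha (LinearMap.ext hc)
  refine ⟨b X / a X, LinearMap.ext fun Y => ?_⟩
  have h1 := h (Y - (a Y / a X) • X) (by
    rw [map_sub, map_smul, smul_eq_mul]
    field_simp
    ring)
  rw [map_sub, map_smul, smul_eq_mul, sub_eq_zero] at h1
  rw [h1, LinearMap.smul_apply, smul_eq_mul]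
  ring

lemma factor_aux {f g f' g' : V →ₗ[ℂ] ℂ} (hf : f ≠ 0) (hf' : f' ≠ 0)
    (h : ∀ X, f X * g X = f' X * g' X) (hk : ∀ X, f X = 0 → f' X = 0) :
    ∃ s : ℂ, s ≠ 0 ∧ f' = s • f ∧ g' = s⁻¹ • g := by
  obtain ⟨s, hs⟩ := smul_of_ker hf hk
  have hs0 : s ≠ 0 := by
    rintro rfl
    exact hf' (by rw [hs, zero_smul])
  refine ⟨s, hs0, hs, ?_⟩
  have h1 : ∀ X, f X * (g - s • g') X = 0 := by
    intro X
    have h2 := h X
    rw [hs, LinearMap.smul_apply, smul_eq_mul] at h2
    rw [LinearMap.sub_apply, LinearMap.smul_apply, smul_eq_mul]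
    linear_combination h2
  have h3 := (prod_zero h1).resolve_left hf
  rw [sub_eq_zero.mp h3, smul_smul, inv_mul_cancel₀ hs0, one_smul]

lemma factor {f g f' g' : V →ₗ[ℂ] ℂ} (hf : f ≠ 0) (hf' : f' ≠ 0) (hg' : g' ≠ 0)
    (h : ∀ X, f X * g X = f' X * g' X) :
    ∃ s : ℂ, s ≠ 0 ∧ ((f' = s • f ∧ g' = s⁻¹ • g) ∨ (f' = s • g ∧ g' = s⁻¹ • f)) := by
  have h1 : ∀ X : LinearMap.ker f, (f'.domRestrict (LinearMap.ker f)) X
      * (g'.domRestrict (LinearMap.ker f)) X = 0 := by
    intro X
    have h2 := h X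
    rw [LinearMap.mem_ker.mp X.2, zero_mul] at h2
    exact h2.symm
  rcases prod_zero h1 with h2 | h2
  · obtain ⟨s, hs, h3, h4⟩ := factor_aux hf hf' h
      (fun X hX => LinearMap.congr_fun h2 (⟨X, hX⟩ : LinearMap.ker f))
    exact ⟨s, hs, Or.inl ⟨h3, h4⟩⟩
  · have h' : ∀ X, f X * g X = g' X * f' X := by
      intro X
      rw [h, mul_comm]
    obtain ⟨s, hs, h3, h4⟩ := factor_aux hf hg' h'
      (fun X hX => LinearMap.congr_fun h2 (⟨X, hX⟩ : LinearMap.ker f))
    exact ⟨s⁻¹, inv_ne_zero hs, Or.inr ⟨h4, by rw [inv_inv]; exact h3⟩⟩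

end Factor

variable {L : Type*} [LieRing L] [LieAlgebra ℂ L] [FiniteDimensional ℂ L] [LieAlgebra.IsKilling ℂ L]

lemma killing_ne_zero {x : L} (hx : x ≠ 0) : killingForm ℂ L x ≠ 0 := by
  intro h
  apply hx
  apply eq_zero_of_killing
  intro Y
  rw [h, LinearMap.zero_apply]

lemma killing_inj {x y : L} {s : ℂ} (h : killingForm ℂ L x = s • killingForm ℂ L y) :
    x = s • y := by
  rw [← sub_eq_zero]
  apply eq_zero_of_killing
  intro Y
  rw [map_sub, map_smul, h, sub_self, LinearMap.zero_apply]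

lemma rk_rankOne_sub (x y x' y' : L) : rk (rankOne x y - rankOne x' y') ≤ 2 := by
  classical
  have h : LinearMap.range (rankOne x y - rankOne x' y')
      ≤ Submodule.span ℂ (({x, x'} : Finset L) : Set L) := by
    rintro _ ⟨X, rfl⟩
    rw [Finset.coe_insert, Finset.coe_singleton, Submodule.mem_span_pair]
    refine ⟨killingForm ℂ L y X, -killingForm ℂ L y' X, ?_⟩
    rw [LinearMap.sub_apply, rankOne_apply, rankOne_apply]
    module
  refine (Submodule.finrank_mono h).trans ((finrank_span_finset_le_card _).trans ?_)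
  exact Finset.card_le_two

/-- The scalar is determined by the bracket. -/
lemma scalar_eq (hL : 4 < finrank ℂ L) {c c' : ℂ} {x y x' y' : L}
    (h : c • ownBracket L + opBracket (rankOne x y) =
      c' • ownBracket L + opBracket (rankOne x' y')) : c = c' := by
  set R := rankOne x y
  set R' := rankOne x' y'
  by_contra hne
  set D : L →ₗ[ℂ] L := (c - c') • LinearMap.id + (R - R') with hD
  have hD' : ∀ X, D X = (c - c') • X + (R X - R' X) := fun X => rfl
  have hder : ∀ X Y, D ⁅X, Y⁆ = ⁅D X, Y⁆ + ⁅X, D Y⁆ := by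
    intro X Y
    have e := LinearMap.congr_fun (LinearMap.congr_fun h X) Y
    simp only [LinearMap.add_apply, LinearMap.smul_apply, ownBracket_apply,
      opBracket_apply] at e
    simp only [hD', add_lie, lie_add, sub_lie, lie_sub, smul_lie, lie_smul]
    linear_combination (norm := module) - e
  obtain ⟨z, hz⟩ := exists_ad_eq D hder
  set U : Submodule ℂ L := LinearMap.ker (R - R') with hU
  have hUz : ∀ X ∈ U, ⁅z, X⁆ = (c - c') • X := by
    intro X hX
    have e : R X - R' X = 0 := hX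
    rw [← hz, hD', e, add_zero]
  have hiso : ∀ X ∈ U, ∀ Y ∈ U, killingForm ℂ L X Y = 0 := by
    intro X hX Y hY
    have e1 := killing_skew' z X Y
    rw [hUz X hX, hUz Y hY, map_smul, map_smul, LinearMap.smul_apply, smul_eq_mul] at e1
    have e2 : (c - c') * killingForm ℂ L X Y = 0 := by
      linear_combination (1 / 2) * e1
    exact (mul_eq_zero.mp e2).resolve_left (sub_ne_zero.mpr hne)
  have hB := LieAlgebra.IsKilling.killingForm_nondegenerate ℂ L
  have h3 := LinearMap.BilinForm.finrank_orthogonal hB U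
  have h4 : U ≤ LinearMap.BilinForm.orthogonal (killingForm ℂ L) U := by
    intro X hX
    rw [LinearMap.BilinForm.mem_orthogonal_iff]
    intro Y hY
    exact hiso Y hY X hX
  have h5 := Submodule.finrank_mono h4
  have h6 := LinearMap.finrank_range_add_finrank_ker (R - R')
  rw [← hU] at h6
  have h7 : finrank ℂ (LinearMap.range (R - R')) ≤ 2 := rk_rankOne_sub x y x' y'
  have h11 := Submodule.finrank_le U
  omega

/-- The pair is determined by the bracket. -/
lemma pair_eq {x y x' y' : L} (hx : x ≠ 0) (hx' : x' ≠ 0) (hy' : y' ≠ 0)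
    (h : opBracket (rankOne x y) = opBracket (rankOne x' y')) : SamePair x y x' y' := by
  have hder : ∀ X Y, (rankOne x y - rankOne x' y') ⁅X, Y⁆
      = ⁅(rankOne x y - rankOne x' y') X, Y⁆ + ⁅X, (rankOne x y - rankOne x' y') Y⁆ := by
    intro X Y
    have e : opBracket (rankOne x y) X Y = opBracket (rankOne x' y') X Y := by rw [h]
    rw [opBracket_apply, opBracket_apply] at e
    simp only [LinearMap.sub_apply, sub_lie, lie_sub]
    linear_combination (norm := module) - e
  obtain ⟨z, hz⟩ := exists_ad_eq _ hder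
  have hz1 : ∀ X, killingForm ℂ L y X • x - killingForm ℂ L y' X • x' = ⁅z, X⁆ := by
    intro X
    rw [← hz, LinearMap.sub_apply, rankOne_apply, rankOne_apply]
  have hq : ∀ X, killingForm ℂ L x X * killingForm ℂ L y X
      = killingForm ℂ L x' X * killingForm ℂ L y' X := by
    intro X
    have h1 := congrArg (fun w => killingForm ℂ L w X) (hz1 X)
    simp only [map_sub, map_smul, LinearMap.sub_apply, LinearMap.smul_apply, smul_eq_mul,
      killing_lie_self] at h1
    linear_combination h1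
  obtain ⟨s, hs, h1 | h1⟩ := factor (killing_ne_zero hx) (killing_ne_zero hx')
    (killing_ne_zero hy') hq
  · exact ⟨s, hs, Or.inl ⟨killing_inj h1.1, killing_inj h1.2⟩⟩
  have hx1 : x' = s • y := killing_inj h1.1
  have hy1 : y' = s⁻¹ • x := killing_inj h1.2
  have hz2 : ∀ X, killingForm ℂ L y X • x - killingForm ℂ L x X • y = ⁅z, X⁆ := by
    intro X
    rw [← hz1 X, hx1, hy1, map_smul, LinearMap.smul_apply, smul_eq_mul, smul_smul]
    congr 2
    field_simp
  have hpar : ∀ X : L, ⁅z, X⁆ = 0 → killingForm ℂ L x X ≠ 0 → ∃ r : ℂ, y = r • x := by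
    intro X hX hne
    have h2 := hz2 X
    rw [hX, sub_eq_zero] at h2
    refine ⟨(killingForm ℂ L x X)⁻¹ * killingForm ℂ L y X, ?_⟩
    rw [mul_smul, h2, smul_smul, inv_mul_cancel₀ hne, one_smul]
  have hpar' : ∀ X : L, ⁅z, X⁆ = 0 → killingForm ℂ L y X ≠ 0 → ∃ r : ℂ, x = r • y := by
    intro X hX hne
    have h2 := hz2 X
    rw [hX, sub_eq_zero] at h2
    refine ⟨(killingForm ℂ L y X)⁻¹ * killingForm ℂ L x X, ?_⟩
    rw [mul_smul, ← h2, smul_smul, inv_mul_cancel₀ hne, one_smul]
  have hy : y ≠ 0 := by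
    rintro rfl
    exact hx' (by rw [hx1, smul_zero])
  by_cases hz0 : z = 0
  · obtain ⟨X, hX⟩ := exists_kill hx
    obtain ⟨r, hr⟩ := hpar X (by rw [hz0, zero_lie]) hX
    have hr0 : r ≠ 0 := by
      rintro rfl
      exact hy (by rw [hr, zero_smul])
    refine ⟨s * r, mul_ne_zero hs hr0, Or.inl ⟨?_, ?_⟩⟩
    · rw [hx1, hr, smul_smul]
    · rw [hy1, hr, smul_smul]
      congr 1
      field_simp
  · have hind : ∀ r : ℂ, y ≠ r • x := by
      intro r hr
      apply hz0
      apply eq_zero_of_lie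
      intro X
      rw [← hz2 X, hr, map_smul, LinearMap.smul_apply, smul_eq_mul, smul_smul, mul_comm r,
        sub_self]
    have hind' : ∀ r : ℂ, x ≠ r • y := by
      intro r hr
      apply hz0
      apply eq_zero_of_lie
      intro X
      rw [← hz2 X, hr, map_smul, LinearMap.smul_apply, smul_eq_mul, smul_smul, mul_comm r,
        sub_self]
    have hsm : orbitDim z ≤ 3 := by
      have h2 : LinearMap.range (LieAlgebra.ad ℂ L z : L →ₗ[ℂ] L)
          = LinearMap.range (rankOne x y - rankOne x' y') := by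
        congr 1
        ext X
        exact (hz X).symm
      have h3 := rk_rankOne_sub x y x' y'
      unfold rk at h3
      unfold orbitDim
      rw [h2]
      omega
    obtain ⟨x₀, e, f, lam, k, ht, hzs⟩ := exists_triple_of_small hz0 hsm
    obtain ⟨I, hI, hIs⟩ := ht.exists_ideal
    have hmem : ∀ v : L, v ∈ spanT x₀ e f → v ∈ I := by
      intro v hv
      rw [← hIs] at hv
      exact hv
    have hin : ∀ a b : L, (∀ r : ℂ, b ≠ r • a) →
        (∀ X : L, ⁅z, X⁆ = 0 → killingForm ℂ L a X ≠ 0 → ∃ r : ℂ, b = r • a) → a ∈ I := by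
      intro a b hab hp
      obtain ⟨u, w, hu, ha, hw, hw'⟩ := ht.decomp a
      have hw0 : w = 0 := by
        apply eq_zero_of_killing
        intro X
        obtain ⟨v, t, hv, hX, htt, ht'⟩ := ht.decomp X
        by_contra hne
        obtain ⟨r, hr⟩ := hp t (ht' z hzs) (by
          rw [ha, map_add, LinearMap.add_apply, htt u hu, zero_add]
          rw [hX, map_add, killing_comm w v, hw v hv, zero_add] at hne
          exact hne)
        exact hab r hr
      rw [ha, hw0, add_zero]
      exact hmem u hu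
    exact ⟨s, hs, Or.inr ⟨⟨I, hI, hin x y hind hpar, hin y x hind' hpar'⟩, hx1, hy1⟩⟩

/-- Pairs in the relation have the same bracket. -/
lemma eq_of_same {x y x' y' : L} (hx : x ≠ 0) (h : SamePair x y x' y') :
    opBracket (rankOne x y) = opBracket (rankOne x' y') := by
  obtain ⟨s, hs, ⟨h1, h2⟩ | ⟨⟨I, hI, hxI, hyI⟩, h1, h2⟩⟩ := h
  · congr 1
    ext X
    rw [rankOne_apply, rankOne_apply, h1, h2, map_smul, LinearMap.smul_apply, smul_eq_mul,
      smul_smul]
    congr 1
    field_simp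
  · obtain ⟨x₀, e, f, lam, k, ht, hIs⟩ := exists_triple_of_ideal hx I hI hxI
    have hmem : ∀ v : L, v ∈ I → v ∈ spanT x₀ e f := by
      intro v hv
      rw [← hIs]
      exact hv
    have h3 : ∀ X, rankOne x' y' X = rankOne x y X + ⁅(2 : ℂ) • ⁅y, x⁆, X⁆ := by
      intro X
      have h4 := ht.star (hmem y hyI) (hmem x hxI) X
      rw [smul_lie, ← h4, rankOne_apply, rankOne_apply, h1, h2, map_smul, LinearMap.smul_apply,
        smul_eq_mul, smul_smul]
      have h5 : s⁻¹ * killingForm ℂ L x X * s = killingForm ℂ L x X := by field_simp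
      rw [h5]
      abel
    ext X Y
    rw [opBracket_apply, opBracket_apply, h3, h3, h3, add_lie, lie_add,
      lie_lie ((2 : ℂ) • ⁅y, x⁆) X Y]
    abel

/-- Every nonzero semisimple Lie algebra of dimension at most four has dimension three. -/
lemma finrank_eq_three {x : L} (hx : x ≠ 0) (h : finrank ℂ L ≤ 4) : finrank ℂ L = 3 := by
  have hker : 1 ≤ finrank ℂ (LinearMap.ker (LieAlgebra.ad ℂ L x : L →ₗ[ℂ] L)) := by
    rw [Nat.one_le_iff_ne_zero, Ne, Submodule.finrank_eq_zero]
    intro h1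
    have h2 : x ∈ LinearMap.ker (LieAlgebra.ad ℂ L x : L →ₗ[ℂ] L) := by
      rw [LinearMap.mem_ker]
      exact lie_self x
    rw [h1, Submodule.mem_bot] at h2
    exact hx h2
  have h1 := LinearMap.finrank_range_add_finrank_ker (LieAlgebra.ad ℂ L x : L →ₗ[ℂ] L)
  have hsm : orbitDim x ≤ 3 := by
    unfold orbitDim
    omega
  obtain ⟨x₀, e, f, lam, k, ht, hxs⟩ := exists_triple_of_small hx hsm
  by_cases htop : spanT x₀ e f = ⊤
  · have h2 := ht.finrank_span
    rw [htop, finrank_top] at h2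
    exact h2
  exfalso
  obtain ⟨Z, hZ⟩ : ∃ Z, Z ∉ spanT x₀ e f := by
    by_contra hcon
    push Not at hcon
    exact htop (by rw [Submodule.eq_top_iff']; exact hcon)
  obtain ⟨u, z, hu, hZu, hz, hz'⟩ := ht.decomp Z
  have hzs : z ∉ spanT x₀ e f := by
    intro h2
    apply hZ
    rw [hZu]
    exact Submodule.add_mem _ hu h2
  have h3 : spanT x₀ e f ⊔ Submodule.span ℂ {z} = ⊤ := by
    apply Submodule.eq_top_of_finrank_eq
    have h4 : spanT x₀ e f < spanT x₀ e f ⊔ Submodule.span ℂ {z} := by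
      refine lt_of_le_of_ne le_sup_left fun h5 => hzs ?_
      rw [h5]
      exact Submodule.mem_sup_right (Submodule.mem_span_singleton_self z)
    have h5 := Submodule.finrank_lt_finrank_of_lt h4
    rw [ht.finrank_span] at h5
    have h6 := Submodule.finrank_le (spanT x₀ e f ⊔ Submodule.span ℂ {z})
    omega
  have h4 : z = 0 := by
    apply eq_zero_of_lie
    intro Y
    have h5 : Y ∈ spanT x₀ e f ⊔ Submodule.span ℂ {z} := by
      rw [h3]
      trivial
    obtain ⟨v, hv, w, hw, rfl⟩ := Submodule.mem_sup.mp h5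
    obtain ⟨a, rfl⟩ := Submodule.mem_span_singleton.mp hw
    rw [lie_add, lie_smul, lie_self, smul_zero, add_zero, ← lie_skew, hz' v hv, neg_zero]
  exact hzs (by rw [h4]; exact Submodule.zero_mem _)

end Pool.Agent.Work.MP_3d4872_al.R1
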