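import Pool.Agent.Work.MP_3d4872_al.Sr.Struct

/-!
# MP_3d4872_al: elements with orbits of dimension at most three
-/

set_option autoImplicit false
set_option linter.unusedSectionVars false

namespace Pool.Agent.Work.MP_3d4872_al.R1

open Pool.Agent.Work.MP_3d4872_al Pool.Agent.Work.MP_3d4872_al.Sr Module

variable {L : Type*} [LieRing L] [LieAlgebra ℂ L] [FiniteDimensional ℂ L] [LieAlgebra.IsKilling ℂ L]

/-- `κ([x, y], z) = - κ(y, [x, z])`. -/
lemma killing_skew' (x y z : L) : killingForm ℂ L ⁅x, y⁆ z = - killingForm ℂ L y ⁅x, z⁆ := by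
  rw [← lie_skew, map_neg, LinearMap.neg_apply, LieModule.traceForm_apply_lie_apply]

lemma killing_lie_self (x y : L) : killingForm ℂ L ⁅x, y⁆ y = 0 := by
  rw [LieModule.traceForm_apply_lie_apply, lie_self, map_zero]

lemma killing_comm (x y : L) : killingForm ℂ L x y = killingForm ℂ L y x :=
  LieModule.traceForm_comm ℂ L L x y

/-- An element killing everything is zero. -/
lemma eq_zero_of_lie {x : L} (h : ∀ y : L, ⁅x, y⁆ = 0) : x = 0 := by
  apply eq_zero_of_killing
  intro y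
  have e : LieAlgebra.ad ℂ L x = 0 := by
    ext z
    simpa using h z
  rw [killingForm_apply_apply, e, LinearMap.zero_comp, map_zero]

/-- If `(ad x)² = 0` then `x = 0`. -/
lemma eq_zero_of_sq {x : L} (h : ∀ y : L, ⁅x, ⁅x, y⁆⁆ = 0) : x = 0 := by
  have h2 : ∀ y z : L, ⁅x, ⁅y, ⁅x, z⁆⁆⁆ = 0 := by
    intro y z
    have e1 : ⁅⁅x, ⁅x, y⁆⁆, z⁆ = 0 := by rw [h, zero_lie]
    have e2 := h ⁅y, z⁆
    rw [lie_lie, lie_lie] at e1
    rw [lie_lie, h] at e1
    simp only [lie_sub, e2, lie_zero, zero_sub, sub_zero] at e1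
    have e4 : (2 : ℂ) • ⁅x, ⁅y, ⁅x, z⁆⁆⁆ = 0 := by
      rw [two_smul]
      linear_combination (norm := abel) - e1
    exact (smul_eq_zero.mp e4).resolve_left two_ne_zero
  apply eq_zero_of_killing
  intro y
  rw [killingForm_apply_apply]
  have hn : IsNilpotent (LieAlgebra.ad ℂ L x ∘ₗ LieAlgebra.ad ℂ L y) := by
    refine ⟨2, ?_⟩
    ext z
    rw [pow_two]
    change ⁅x, ⁅y, ⁅x, ⁅y, z⁆⁆⁆⁆ = 0
    exact h2 y _
  exact (LinearMap.isNilpotent_trace_of_isNilpotent hn).eq_zero

/-- The relations of a basis `x, e, f` of a three-dimensional ideal. -/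
structure IsTriple (x e f : L) (lam k : ℂ) : Prop where
  hl : lam ≠ 0
  hk : k ≠ 0
  he : ⁅x, e⁆ = lam • e
  hf : ⁅x, f⁆ = -(lam • f)
  hef : ⁅e, f⁆ = k • x
  kxx : killingForm ℂ L x x = 2 * lam ^ 2
  kef : killingForm ℂ L e f = 2 * k * lam
  kee : killingForm ℂ L e e = 0
  kff : killingForm ℂ L f f = 0
  kxe : killingForm ℂ L x e = 0
  kxf : killingForm ℂ L x f = 0
  ix : ∀ Y : L, ∃ a b c : ℂ, ⁅Y, x⁆ = a • x + b • e + c • f
  ie : ∀ Y : L, ∃ a b c : ℂ, ⁅Y, e⁆ = a • x + b • e + c • f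
  if' : ∀ Y : L, ∃ a b c : ℂ, ⁅Y, f⁆ = a • x + b • e + c • f

/-- An element with a two-dimensional orbit and a nonzero eigenvalue. -/
theorem exists_triple {x e : L} {lam : ℂ} (hl : lam ≠ 0) (he0 : e ≠ 0) (he : ⁅x, e⁆ = lam • e)
    (hr : orbitDim x ≤ 2) : ∃ (f : L) (k : ℂ), IsTriple x e f lam k := by
  -- the opposite eigenvector
  obtain ⟨f, hf0, hf⟩ : ∃ f : L, f ≠ 0 ∧ ⁅x, f⁆ = -(lam • f) := by
    set B : L →ₗ[ℂ] L := (LieAlgebra.ad ℂ L x : L →ₗ[ℂ] L) - lam • LinearMap.id with hB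
    have hBa : ∀ Y, B Y = ⁅x, Y⁆ - lam • Y := fun Y => rfl
    have hBn : ¬ Function.Injective B := by
      intro h
      apply he0
      apply h
      rw [hBa, he, sub_self, map_zero]
    have hBs : LinearMap.range B ≠ ⊤ := by
      intro h
      exact hBn (LinearMap.injective_iff_surjective.mpr (LinearMap.range_eq_top.mp h))
    obtain ⟨ℓ, hℓ0, hℓ⟩ := Submodule.exists_dual_map_eq_bot_of_lt_top
      (lt_top_iff_ne_top.mpr hBs) inferInstance
    obtain ⟨f, hf⟩ := exists_killing_eq (L := L) ℓ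
    refine ⟨f, ?_, ?_⟩
    · rintro rfl
      apply hℓ0
      ext Y
      rw [← hf]
      simp
    · have h1 : ∀ Y, killingForm ℂ L f (B Y) = 0 := by
        intro Y
        rw [hf]
        have : ℓ (B Y) ∈ (LinearMap.range B).map ℓ := ⟨B Y, ⟨Y, rfl⟩, rfl⟩
        rw [hℓ] at this
        simpa using this
      have h2 : ⁅f, x⁆ - lam • f = 0 := by
        apply eq_zero_of_killing
        intro Y
        have h3 := h1 Y
        rw [hBa, map_sub, map_smul] at h3
        rw [map_sub, map_smul, LinearMap.sub_apply, LinearMap.smul_apply,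
          LieModule.traceForm_apply_lie_apply]
        exact h3
      rw [← lie_skew, sub_eq_zero.mp h2]
  -- the Killing form
  have kee : killingForm ℂ L e e = 0 := by
    have h1 := killing_lie_self x e
    rw [he, map_smul, LinearMap.smul_apply, smul_eq_mul] at h1
    exact (mul_eq_zero.mp h1).resolve_left hl
  have kff : killingForm ℂ L f f = 0 := by
    have h1 := killing_lie_self x f
    rw [hf, map_neg, map_smul, LinearMap.neg_apply, LinearMap.smul_apply, smul_eq_mul,
      neg_eq_zero] at h1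
    exact (mul_eq_zero.mp h1).resolve_left hl
  have kxe : killingForm ℂ L x e = 0 := by
    have h1 : killingForm ℂ L x ⁅x, e⁆ = 0 := by
      rw [← LieModule.traceForm_apply_lie_apply, lie_self]
      simp
    rw [he, map_smul, smul_eq_mul] at h1
    exact (mul_eq_zero.mp h1).resolve_left hl
  have kxf : killingForm ℂ L x f = 0 := by
    have h1 : killingForm ℂ L x ⁅x, f⁆ = 0 := by
      rw [← LieModule.traceForm_apply_lie_apply, lie_self]
      simp
    rw [hf, map_neg, map_smul, smul_eq_mul, neg_eq_zero] at h1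
    exact (mul_eq_zero.mp h1).resolve_left hl
  have kez : ∀ z : L, ⁅x, z⁆ = 0 → killingForm ℂ L e z = 0 := by
    intro z hz
    have h1 := killing_skew' x e z
    rw [he, hz, map_zero, neg_zero, map_smul, LinearMap.smul_apply, smul_eq_mul] at h1
    exact (mul_eq_zero.mp h1).resolve_left hl
  have kfz : ∀ z : L, ⁅x, z⁆ = 0 → killingForm ℂ L f z = 0 := by
    intro z hz
    have h1 := killing_skew' x f z
    rw [hf, hz, map_zero, neg_zero, map_neg, map_smul, LinearMap.neg_apply, LinearMap.smul_apply,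
      smul_eq_mul, neg_eq_zero] at h1
    exact (mul_eq_zero.mp h1).resolve_left hl
  -- the range of `ad x`
  have hind : LinearIndependent ℂ ![e, f] := by
    rw [LinearIndependent.pair_iff]
    intro a b hab
    have h1 := congrArg (fun Y : L => ⁅x, Y⁆) hab
    simp only [lie_add, lie_smul, he, hf, lie_zero] at h1
    have h2 : a • e - b • f = 0 := by
      have : lam • (a • e - b • f) = 0 := by
        rw [← h1]
        module
      exact (smul_eq_zero.mp this).resolve_left hl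
    have h3 : (2 * a) • e = 0 := by
      linear_combination (norm := module) hab + h2
    have h4 : (2 * b) • f = 0 := by
      linear_combination (norm := module) hab - h2
    constructor
    · simpa using (smul_eq_zero.mp h3).resolve_right he0
    · simpa using (smul_eq_zero.mp h4).resolve_right hf0
  have hspan : Submodule.span ℂ ({e, f} : Set L)
      = LinearMap.range (LieAlgebra.ad ℂ L x : L →ₗ[ℂ] L) := by
    apply Submodule.eq_of_le_of_finrank_le
    · rw [Submodule.span_le]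
      rintro Y (rfl | rfl)
      · refine ⟨lam⁻¹ • Y, ?_⟩
        change ⁅x, lam⁻¹ • Y⁆ = Y
        rw [lie_smul, he, smul_smul, inv_mul_cancel₀ hl, one_smul]
      · refine ⟨-(lam⁻¹ • Y), ?_⟩
        change ⁅x, -(lam⁻¹ • Y)⁆ = Y
        rw [lie_neg, lie_smul, hf, smul_neg, neg_neg, smul_smul, inv_mul_cancel₀ hl, one_smul]
    · have h1 := finrank_span_eq_card hind
      have h2 : Set.range ![e, f] = ({e, f} : Set L) := by
        ext Y
        simp [eq_comm]
        exact or_comm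
      rw [h2, Fintype.card_fin] at h1
      rw [h1]
      exact hr
  have hrange : ∀ Y : L, ∃ a b : ℂ, ⁅x, Y⁆ = a • e + b • f := by
    intro Y
    have h1 : ⁅x, Y⁆ ∈ Submodule.span ℂ ({e, f} : Set L) := by
      rw [hspan]
      exact ⟨Y, rfl⟩
    rw [Submodule.mem_span_pair] at h1
    obtain ⟨a, b, hab⟩ := h1
    exact ⟨a, b, hab.symm⟩
  have hdec : ∀ Y : L, ∃ (z : L) (a b : ℂ), ⁅x, z⁆ = 0 ∧ Y = z + a • e + b • f := by
    intro Y
    obtain ⟨a, b, hab⟩ := hrange Y
    refine ⟨Y - (lam⁻¹ * a) • e + (lam⁻¹ * b) • f, lam⁻¹ * a, -(lam⁻¹ * b), ?_, by module⟩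
    rw [lie_add, lie_sub, lie_smul, lie_smul, hab, he, hf]
    have h1 : lam⁻¹ * a * lam = a := by field_simp
    have h2 : lam⁻¹ * b * lam = b := by field_simp
    rw [smul_smul, h1, smul_neg, smul_smul, h2]
    module
  have hze : ∀ z : L, ⁅x, z⁆ = 0 → ∃ c : ℂ, ⁅z, e⁆ = c • e := by
    intro z hz
    have h1 : ⁅x, ⁅z, e⁆⁆ = lam • ⁅z, e⁆ := by
      rw [leibniz_lie, hz, zero_lie, zero_add, he, lie_smul]
    obtain ⟨a, b, hab⟩ := hrange ⁅z, e⁆
    rw [h1] at hab
    have h2 : ⁅z, e⁆ = (lam⁻¹ * a) • e + (lam⁻¹ * b) • f := by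
      rw [← one_smul ℂ ⁅z, e⁆, ← inv_mul_cancel₀ hl, mul_smul, hab]
      module
    have h3 := h1
    rw [h2, lie_add, lie_smul, lie_smul, he, hf] at h3
    have h4 : (2 * b) • f = 0 := by
      have h5 : lam * (lam⁻¹ * b) = b := by field_simp
      have h6 : (2 * (lam * (lam⁻¹ * b))) • f = 0 := by
        linear_combination (norm := module) - h3
      rwa [h5] at h6
    have h7 : b = 0 := by simpa using (smul_eq_zero.mp h4).resolve_right hf0
    exact ⟨lam⁻¹ * a, by rw [h2, h7]; simp⟩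
  have hzf : ∀ z : L, ⁅x, z⁆ = 0 → ∃ c : ℂ, ⁅z, f⁆ = c • f := by
    intro z hz
    have h1 : ⁅x, ⁅z, f⁆⁆ = -(lam • ⁅z, f⁆) := by
      rw [leibniz_lie, hz, zero_lie, zero_add, hf, lie_neg, lie_smul]
    obtain ⟨a, b, hab⟩ := hrange ⁅z, f⁆
    rw [h1] at hab
    have h2 : ⁅z, f⁆ = (-(lam⁻¹ * a)) • e + (-(lam⁻¹ * b)) • f := by
      rw [← one_smul ℂ ⁅z, f⁆, ← inv_mul_cancel₀ hl, mul_smul, ← neg_neg (lam • ⁅z, f⁆), hab]
      module
    have h3 := h1
    rw [h2, lie_add, lie_smul, lie_smul, he, hf] at h3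
    have h4 : (2 * a) • e = 0 := by
      have h5 : lam * (lam⁻¹ * a) = a := by field_simp
      have h6 : (2 * (lam * (lam⁻¹ * a))) • e = 0 := by
        linear_combination (norm := module) - h3
      rwa [h5] at h6
    have h7 : a = 0 := by simpa using (smul_eq_zero.mp h4).resolve_right he0
    exact ⟨-(lam⁻¹ * b), by rw [h2, h7]; simp⟩
  have kef0 : killingForm ℂ L e f ≠ 0 := by
    intro h
    apply he0
    apply eq_zero_of_killing
    intro Y
    obtain ⟨z, a, b, hz, rfl⟩ := hdec Y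
    rw [map_add, map_add, map_smul, map_smul, kez z hz, kee, h]
    simp
  have hopp : ∀ (z : L) (c c' : ℂ), ⁅z, e⁆ = c • e → ⁅z, f⁆ = c' • f → c' = -c := by
    intro z c c' h1 h2
    have h3 := killing_skew' z e f
    rw [h1, h2, map_smul, map_smul, LinearMap.smul_apply, smul_eq_mul, smul_eq_mul] at h3
    have h4 : (c + c') * killingForm ℂ L e f = 0 := by linear_combination h3
    have h5 := (mul_eq_zero.mp h4).resolve_right kef0
    linear_combination h5
  have kxx : killingForm ℂ L x x = 2 * lam ^ 2 := by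
    set A : L →ₗ[ℂ] L := (LieAlgebra.ad ℂ L x : L →ₗ[ℂ] L) with hA
    have hp : LinearMap.IsProj (LinearMap.range A) ((lam ^ 2)⁻¹ • (A ∘ₗ A)) := by
      refine ⟨fun Y => ?_, fun Y hY => ?_⟩
      · exact Submodule.smul_mem _ _ ⟨A Y, rfl⟩
      · rw [hA, ← hspan, Submodule.mem_span_pair] at hY
        obtain ⟨a, b, rfl⟩ := hY
        change (lam ^ 2)⁻¹ • ⁅x, ⁅x, a • e + b • f⁆⁆ = a • e + b • f
        simp only [lie_add, lie_smul, he, hf, lie_neg, smul_neg, neg_neg, smul_add, smul_smul]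
        have h1 : (lam ^ 2)⁻¹ * (a * lam * lam) = a := by field_simp
        have h2 : (lam ^ 2)⁻¹ * (b * lam * lam) = b := by field_simp
        rw [h1, h2]
    have ht := hp.trace
    have h1 := finrank_span_eq_card hind
    have h2 : Set.range ![e, f] = ({e, f} : Set L) := by
      ext Y
      simp [eq_comm]
      exact or_comm
    rw [h2, Fintype.card_fin, hspan] at h1
    rw [map_smul, smul_eq_mul, h1] at ht
    rw [killingForm_apply_apply]
    have h3 : (lam ^ 2) ≠ 0 := pow_ne_zero _ hl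
    have h4 := congrArg (fun t => lam ^ 2 * t) ht
    simp only [← mul_assoc, mul_inv_cancel₀ h3, one_mul] at h4
    refine h4.trans ?_
    push_cast
    ring
  have kxz : ∀ (z : L) (c : ℂ), ⁅x, z⁆ = 0 → ⁅z, e⁆ = c • e → killingForm ℂ L x z = 2 * lam * c := by
    intro z c hz h1
    set z' := z - (lam⁻¹ * c) • x with hz'
    have h2 : ⁅x, z'⁆ = 0 := by rw [hz', lie_sub, hz, lie_smul, lie_self, smul_zero, sub_zero]
    have h3 : ⁅z', e⁆ = 0 := by
      have : lam⁻¹ * c * lam = c := by field_simp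
      rw [hz', sub_lie, smul_lie, he, h1, smul_smul, this, sub_self]
    obtain ⟨c', h4⟩ := hzf z' h2
    have h5 : c' = -0 := hopp z' 0 c' (by rw [h3, zero_smul]) h4
    rw [h5, neg_zero, zero_smul] at h4
    have h6 : LieAlgebra.ad ℂ L x ∘ₗ LieAlgebra.ad ℂ L z' = 0 := by
      apply LinearMap.ext
      intro Y
      change ⁅x, ⁅z', Y⁆⁆ = 0
      obtain ⟨w, a, b, hw, rfl⟩ := hdec Y
      simp only [lie_add, lie_smul, h3, h4, smul_zero, add_zero]
      rw [leibniz_lie, h2, hw, zero_lie, lie_zero, add_zero]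
    have h7 : killingForm ℂ L x z' = 0 := by
      rw [killingForm_apply_apply, h6, map_zero]
    rw [hz', map_sub, map_smul, kxx, smul_eq_mul] at h7
    have h8 : lam⁻¹ * c * (2 * lam ^ 2) = 2 * lam * c := by field_simp
    rw [h8] at h7
    linear_combination h7
  -- the bracket of `e` and `f`
  have hef : ⁅e, f⁆ = (killingForm ℂ L e f * (2 * lam)⁻¹) • x := by
    rw [← sub_eq_zero]
    apply eq_zero_of_killing
    intro Y
    obtain ⟨z, a, b, hz, rfl⟩ := hdec Y
    obtain ⟨c, hc⟩ := hze z hz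
    obtain ⟨c', hc'⟩ := hzf z hz
    have h1 := hopp z c c' hc hc'
    have h2 : killingForm ℂ L ⁅e, f⁆ e = 0 := by
      rw [← lie_skew, map_neg, LinearMap.neg_apply, killing_lie_self, neg_zero]
    have h3 : killingForm ℂ L ⁅e, f⁆ f = 0 := killing_lie_self e f
    have h4 : killingForm ℂ L ⁅e, f⁆ z = c * killingForm ℂ L e f := by
      rw [LieModule.traceForm_apply_lie_apply, ← lie_skew, hc', map_neg, map_smul, h1, smul_eq_mul]
      ring
    simp only [map_sub, map_add, map_smul, LinearMap.sub_apply, LinearMap.smul_apply, smul_eq_mul,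
      h2, h3, h4, kxe, kxf, kxz z c hz hc]
    field_simp
    ring
  refine ⟨f, killingForm ℂ L e f * (2 * lam)⁻¹, hl, mul_ne_zero kef0 (inv_ne_zero
    (mul_ne_zero two_ne_zero hl)), he, hf, hef, kxx, ?_, kee, kff, kxe, kxf, ?_, ?_, ?_⟩
  · field_simp
  · intro Y
    obtain ⟨a, b, hab⟩ := hrange Y
    refine ⟨0, -a, -b, ?_⟩
    rw [← lie_skew, hab]
    module
  · intro Y
    obtain ⟨z, a, b, hz, rfl⟩ := hdec Y
    obtain ⟨c, hc⟩ := hze z hz
    refine ⟨-(b * (killingForm ℂ L e f * (2 * lam)⁻¹)), c, 0, ?_⟩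
    rw [add_lie, add_lie, smul_lie, smul_lie, hc, lie_self, ← lie_skew f e, hef]
    module
  · intro Y
    obtain ⟨z, a, b, hz, rfl⟩ := hdec Y
    obtain ⟨c, hc⟩ := hzf z hz
    refine ⟨a * (killingForm ℂ L e f * (2 * lam)⁻¹), 0, c, ?_⟩
    rw [add_lie, add_lie, smul_lie, smul_lie, hc, lie_self, hef]
    module

end Pool.Agent.Work.MP_3d4872_al.R1
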