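import Pool.Agent.Work.MP_3d4872_al.R1.Orbit

/-!
# MP_3d4872_al: three-dimensional ideals
-/

set_option autoImplicit false
set_option linter.unusedSectionVars false

namespace Pool.Agent.Work.MP_3d4872_al.R1

open Pool.Agent.Work.MP_3d4872_al Pool.Agent.Work.MP_3d4872_al.Sr Module

variable {L : Type*} [LieRing L] [LieAlgebra ℂ L] [FiniteDimensional ℂ L] [LieAlgebra.IsKilling ℂ L]

namespace IsTriple

variable {x e f : L} {lam k : ℂ} (ht : IsTriple x e f lam k)

include ht

lemma lie_comb (a b c a' b' c' : ℂ) :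
    ⁅a • x + b • e + c • f, a' • x + b' • e + c' • f⁆
      = (k * (b * c' - c * b')) • x + (lam * (a * b' - b * a')) • e
        + (lam * (c * a' - a * c')) • f := by
  have h1 : ⁅e, x⁆ = -(lam • e) := by rw [← lie_skew, ht.he]
  have h2 : ⁅f, x⁆ = lam • f := by rw [← lie_skew, ht.hf, neg_neg]
  have h3 : ⁅f, e⁆ = -(k • x) := by rw [← lie_skew, ht.hef]
  simp only [add_lie, lie_add, smul_lie, lie_smul, lie_self, ht.he, ht.hf, ht.hef, h1, h2, h3]
  module

lemma kill_comb (a b c a' b' c' : ℂ) :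
    killingForm ℂ L (a • x + b • e + c • f) (a' • x + b' • e + c' • f)
      = 2 * lam ^ 2 * (a * a') + 2 * k * lam * (b * c' + c * b') := by
  have h1 : killingForm ℂ L e x = 0 := by rw [killing_comm, ht.kxe]
  have h2 : killingForm ℂ L f x = 0 := by rw [killing_comm, ht.kxf]
  have h3 : killingForm ℂ L f e = 2 * k * lam := by rw [killing_comm, ht.kef]
  simp only [map_add, map_smul, LinearMap.add_apply, LinearMap.smul_apply, smul_eq_mul, ht.kxx,
    ht.kef, ht.kee, ht.kff, ht.kxe, ht.kxf, h1, h2, h3]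
  ring

lemma linInd : LinearIndependent ℂ ![x, e, f] := by
  rw [Fintype.linearIndependent_iff]
  intro g hg
  simp only [Fin.sum_univ_three, Matrix.cons_val_zero, Matrix.cons_val_one,
    Matrix.cons_val_two, Matrix.head_cons, Matrix.tail_cons] at hg
  have hg' : g 0 • x + g 1 • e + g 2 • f = 0 := hg
  have e1 := ht.kill_comb (g 0) (g 1) (g 2) 1 0 0
  have e2 := ht.kill_comb (g 0) (g 1) (g 2) 0 1 0
  have e3 := ht.kill_comb (g 0) (g 1) (g 2) 0 0 1
  rw [hg', map_zero, LinearMap.zero_apply] at e1 e2 e3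
  have hl := ht.hl
  have hk := ht.hk
  have f1 : g 0 = 0 := by
    have : 2 * lam ^ 2 * g 0 = 0 := by linear_combination - e1
    have h2 : 2 * lam ^ 2 ≠ 0 := mul_ne_zero two_ne_zero (pow_ne_zero _ hl)
    exact (mul_eq_zero.mp this).resolve_left h2
  have f2 : g 2 = 0 := by
    have : 2 * k * lam * g 2 = 0 := by linear_combination - e2
    have h2 : 2 * k * lam ≠ 0 := mul_ne_zero (mul_ne_zero two_ne_zero hk) hl
    exact (mul_eq_zero.mp this).resolve_left h2
  have f3 : g 1 = 0 := by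
    have : 2 * k * lam * g 1 = 0 := by linear_combination - e3
    have h2 : 2 * k * lam ≠ 0 := mul_ne_zero (mul_ne_zero two_ne_zero hk) hl
    exact (mul_eq_zero.mp this).resolve_left h2
  intro i
  fin_cases i
  · exact f1
  · exact f3
  · exact f2

lemma finrank_span : finrank ℂ (spanT x e f) = 3 := by
  have h1 := finrank_span_eq_card ht.linInd
  have h2 : Set.range ![x, e, f] = ({x, e, f} : Set L) := by
    ext Y
    simp only [Set.mem_range, Fin.exists_fin_succ, Matrix.cons_val_zero, Matrix.cons_val_succ,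
      Set.mem_insert_iff, Set.mem_singleton_iff]
    simp [eq_comm]
  rw [h2, Fintype.card_fin] at h1
  exact h1

lemma lie_mem_span (Y : L) {u : L} (hu : u ∈ spanT x e f) : ⁅Y, u⁆ ∈ spanT x e f := by
  obtain ⟨a, b, c, rfl⟩ := mem_spanT.mp hu
  obtain ⟨a1, b1, c1, h1⟩ := ht.ix Y
  obtain ⟨a2, b2, c2, h2⟩ := ht.ie Y
  obtain ⟨a3, b3, c3, h3⟩ := ht.if' Y
  rw [mem_spanT]
  refine ⟨a * a1 + b * a2 + c * a3, a * b1 + b * b2 + c * b3, a * c1 + b * c2 + c * c3, ?_⟩
  rw [lie_add, lie_add, lie_smul, lie_smul, lie_smul, h1, h2, h3]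
  module

/-- Decomposition of an element. -/
lemma decomp (Z : L) : ∃ (u z : L), u ∈ spanT x e f ∧ Z = u + z ∧
    (∀ v ∈ spanT x e f, killingForm ℂ L v z = 0) ∧ ∀ v ∈ spanT x e f, ⁅v, z⁆ = 0 := by
  have hl := ht.hl
  have hk := ht.hk
  set u : L := (killingForm ℂ L x Z / (2 * lam ^ 2)) • x
    + (killingForm ℂ L f Z / (2 * k * lam)) • e + (killingForm ℂ L e Z / (2 * k * lam)) • f with hu
  have hum : u ∈ spanT x e f := mem_spanT.mpr ⟨_, _, _, hu⟩
  have hx : killingForm ℂ L x u = killingForm ℂ L x Z := by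
    have h1 := ht.kill_comb 1 0 0 (killingForm ℂ L x Z / (2 * lam ^ 2))
      (killingForm ℂ L f Z / (2 * k * lam)) (killingForm ℂ L e Z / (2 * k * lam))
    rw [← hu] at h1
    simp only [one_smul, zero_smul, add_zero] at h1
    rw [h1]
    field_simp
    ring
  have he : killingForm ℂ L e u = killingForm ℂ L e Z := by
    have h1 := ht.kill_comb 0 1 0 (killingForm ℂ L x Z / (2 * lam ^ 2))
      (killingForm ℂ L f Z / (2 * k * lam)) (killingForm ℂ L e Z / (2 * k * lam))
    rw [← hu] at h1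
    simp only [one_smul, zero_smul, add_zero, zero_add] at h1
    rw [h1]
    field_simp
    ring
  have hf : killingForm ℂ L f u = killingForm ℂ L f Z := by
    have h1 := ht.kill_comb 0 0 1 (killingForm ℂ L x Z / (2 * lam ^ 2))
      (killingForm ℂ L f Z / (2 * k * lam)) (killingForm ℂ L e Z / (2 * k * lam))
    rw [← hu] at h1
    simp only [one_smul, zero_smul, zero_add] at h1
    rw [h1]
    field_simp
    ring
  have hkill : ∀ v ∈ spanT x e f, killingForm ℂ L v (Z - u) = 0 := by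
    intro v hv
    obtain ⟨a, b, c, rfl⟩ := mem_spanT.mp hv
    simp only [map_add, map_smul, LinearMap.add_apply, LinearMap.smul_apply, map_sub, smul_eq_mul,
      hx, he, hf]
    ring
  refine ⟨u, Z - u, hum, by abel, hkill, fun v hv => ?_⟩
  apply eq_zero_of_killing
  intro Y
  rw [killing_skew', killing_comm, hkill _ ?_, neg_zero]
  rw [← lie_skew]
  exact Submodule.neg_mem _ (ht.lie_mem_span Y hv)

/-- The fundamental identity of a three-dimensional ideal. -/
lemma star {u v : L} (hu : u ∈ spanT x e f) (hv : v ∈ spanT x e f) (Z : L) :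
    killingForm ℂ L v Z • u - killingForm ℂ L u Z • v = (2 : ℂ) • ⁅⁅u, v⁆, Z⁆ := by
  obtain ⟨w, z, hw, rfl, h1, h2⟩ := ht.decomp Z
  have h3 : ⁅u, v⁆ ∈ spanT x e f := ht.lie_mem_span u hv
  rw [map_add, map_add, h1 v hv, h1 u hu, add_zero, add_zero, lie_add, h2 _ h3, add_zero]
  obtain ⟨a, b, c, rfl⟩ := mem_spanT.mp hu
  obtain ⟨a', b', c', rfl⟩ := mem_spanT.mp hv
  obtain ⟨p, q, r, rfl⟩ := mem_spanT.mp hw
  rw [ht.lie_comb, ht.lie_comb, ht.kill_comb, ht.kill_comb]
  module

/-- A three-dimensional ideal containing a nonzero element of the span is the span. -/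
lemma eq_of_mem {y : L} (hy : y ≠ 0) (hys : y ∈ spanT x e f) (I : LieIdeal ℂ L)
    (hI : finrank ℂ I = 3) (hyI : y ∈ I) : (I : Submodule ℂ L) = spanT x e f := by
  obtain ⟨Z, hZ⟩ : ∃ Z, killingForm ℂ L y Z ≠ 0 := by
    by_contra hcon
    push Not at hcon
    exact hy (eq_zero_of_killing hcon)
  have hle : spanT x e f ≤ (I : Submodule ℂ L) := by
    intro v hv
    have h1 := ht.star hys hv Z
    have h2 : ⁅⁅y, v⁆, Z⁆ ∈ I := by
      apply lie_mem_left ℂ L I
      exact lie_mem_left ℂ L I _ _ hyI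
    have h3 : killingForm ℂ L y Z • v ∈ I := by
      have h4 : killingForm ℂ L y Z • v = killingForm ℂ L v Z • y - (2 : ℂ) • ⁅⁅y, v⁆, Z⁆ := by
        rw [← h1]
        abel
      rw [h4]
      exact I.sub_mem (I.smul_mem _ hyI) (I.smul_mem _ h2)
    have h5 : v = (killingForm ℂ L y Z)⁻¹ • (killingForm ℂ L y Z • v) := by
      rw [smul_smul, inv_mul_cancel₀ hZ, one_smul]
    rw [h5]
    exact I.smul_mem _ h3
  symm
  apply Submodule.eq_of_le_of_finrank_eq hle
  rw [ht.finrank_span]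
  exact hI.symm

/-- The ideal of a triple. -/
lemma exists_ideal : ∃ I : LieIdeal ℂ L, finrank ℂ I = 3 ∧ (I : Submodule ℂ L) = spanT x e f := by
  let I : LieIdeal ℂ L :=
    { spanT x e f with
      lie_mem := by
        intro Y u hu
        exact ht.lie_mem_span Y hu }
  exact ⟨I, ht.finrank_span, rfl⟩

end IsTriple

/-- Nonzero elements of three-dimensional ideals have triples. -/
theorem exists_triple_of_ideal {y : L} (hy : y ≠ 0) (I : LieIdeal ℂ L) (hI : finrank ℂ I = 3)
    (hyI : y ∈ I) : ∃ (x e f : L) (lam k : ℂ), IsTriple x e f lam k ∧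
      (I : Submodule ℂ L) = spanT x e f := by
  have h1 : orbitDim y ≤ 3 := by
    rw [← hI]
    apply Submodule.finrank_mono (t := (I : Submodule ℂ L))
    rintro _ ⟨Y, rfl⟩
    exact lie_mem_left ℂ L I _ _ hyI
  obtain ⟨x, e, f, lam, k, ht, hm⟩ := exists_triple_of_small hy h1
  exact ⟨x, e, f, lam, k, ht, ht.eq_of_mem hy hm I hI hyI⟩

end Pool.Agent.Work.MP_3d4872_al.R1
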